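import Pool.Agent.H77.SW.Ext
import Pool.Agent.H4.FC.Defs
import Pool.Agent.H4.FC.TopL

/-!
# Singer without colours for Coxeter groups of FC type: definitions

The space `Zs`, the sequence `GenSeq` and the group `Ext_G` are those of `Pool.Agent.H77.SW`.
-/

set_option autoImplicit false
set_option linter.unusedSectionVars false

open Finset

namespace Pool.Agent.H77.SX

open Pool.Agent.H77.SW

variable {V : Type} [DecidableEq V] [Fintype V]

/-- the regular representation with marked elements `g v`: `(rG g v f) p = f (p * g v)` -/
def rG (K : Type) [Field K] {P : Type} [Group P] (g : V → P) (v : V) : (P → K) →ₗ[K] (P → K) where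
  toFun f p := f (p * g v)
  map_add' _ _ := rfl
  map_smul' _ _ := rfl

/-- the dimension of the space of cycles with coefficients in the regular representation -/
noncomputable def dG (K : Type) [Field K] (G : SimpleGraph V) (n : ℕ) {P : Type} [Group P]
    (g : V → P) : ℕ := Module.finrank K (Zs K G n (rG K g))

/-- the cycles whose component at `σ` vanishes -/
def ZG (K : Type) [Field K] (G : SimpleGraph V) (n : ℕ) {P : Type} [Group P] (g : V → P)
    (σ : Finset V) : Submodule K (Finset V → P → K) :=
  Zs K G n (rG K g) ⊓ LinearMap.ker (LinearMap.proj (R := K) (φ := fun _ : Finset V => P → K) σ)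

/-- the extension module: functions of `(A, p)`, `A` a set of vertices. The vertices in `s` act by
`(r v f) (A, p) = f (A, p g v) + [v ∈ A] t v p f (A - v, p g v)`, the others by
`f (A, p g v)`. -/
def rX {K : Type} [Field K] {P : Type} [Group P] (g : V → P) (s : Finset V) (t : V → P → K)
    (v : V) : (Finset V × P → K) →ₗ[K] (Finset V × P → K) where
  toFun f x := f (x.1, x.2 * g v) +
    if v ∈ s ∧ v ∈ x.1 then t v x.2 * f (x.1.erase v, x.2 * g v) else 0
  map_add' f f' := by
    funext x
    simp only [Pi.add_apply]
    split_ifs <;> ring
  map_smul' c f := by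
    funext x
    simp only [Pi.smul_apply, smul_eq_mul, RingHom.id_apply]
    split_ifs <;> ring

/-- a finite quotient `P` of the Coxeter group over a quotient `Ps`, the kernel of `P → Ps` is a
two-group -/
structure FQ (M : CoxeterMatrix V) {Ps : Type} [Group Ps] (πs : M.Group →* Ps) (P : Type)
    [Group P] where
  /-- the projection -/
  π : M.Group →* P
  surj : Function.Surjective π
  /-- the map to `Ps` -/
  κ : P →* Ps
  κπ : ∀ w, κ (π w) = πs w
  two : IsPGroup 2 κ.ker

/-- the images of the generators -/
def FQ.g {M : CoxeterMatrix V} {Ps : Type} [Group Ps] {πs : M.Group →* Ps} {P : Type} [Group P]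
    (D : FQ M πs P) (v : V) : P := D.π (M.simple v)

/-- For every set `σ` of vertices without common neighbour the intersection of the subgroups
generated by the links of the vertices in `σ` is trivial. -/
def LinkGood (G : SimpleGraph V) {P : Type} [Group P] (g : V → P) : Prop :=
  ∀ σ : Finset V, (∀ u, ∃ v ∈ σ, ¬ G.Adj v u) → ∀ x : P,
    (∀ v ∈ σ, x ∈ Subgroup.closure (g '' {u | G.Adj v u})) → x = 1

end Pool.Agent.H77.SX
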