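import Pool.Agent.H77.SX.Defs
import Pool.Agent.H4.FC.FinalL
import Pool.Agent.H4.Singer.RankInt

/-!
# Singer without colours for Coxeter groups of FC type: comparison of the Betti numbers
-/

set_option autoImplicit false
set_option linter.unusedSectionVars false

open Finset

namespace Pool.Agent.H77.SX

open Pool.Agent.H77.SW

open Pool.Agent.H85.Fold Pool.Agent.H85.Fold2

variable {V : Type} [DecidableEq V] [Fintype V] {K : Type} [Field K] [CharP K 2]

open Pool.Agent.H4.Singer (sg rank_int_le)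

/-- the sign -/
private def Cmp_e {P : Type} (e : P → ZMod 2) (p : P) : ℤ := if e p = 0 then 1 else -1

private theorem Cmp_e_mul {P : Type} [Group P] (e : P → ZMod 2)
    (he : ∀ p q, e (p * q) = e p + e q) {x : P} (hx : e x = 1) (p : P) :
    Cmp_e e (p * x) = - Cmp_e e p := by
  unfold Cmp_e
  rw [he, hx]
  generalize e p = y
  revert y
  decide

private theorem Cmp_e_sq {P : Type} (e : P → ZMod 2) (p : P) : Cmp_e e p * Cmp_e e p = 1 := by
  unfold Cmp_e
  split_ifs <;> norm_num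

private theorem Cmp_e_two {P : Type} (e : P → ZMod 2) (p : P) : (Cmp_e e p : K) = 1 := by
  unfold Cmp_e
  split_ifs
  · simp
  · rw [Int.cast_neg, Int.cast_one, CharTwo.neg_eq]

/-- the subgroup of a facet -/
private def Cmp_H {P : Type} [Group P] (g : V → P) (σ : Finset V) : Subgroup P :=
  Subgroup.closure (g '' (σ : Set V))

/-- the cells of top dimension -/
private abbrev Cmp_I (G : SimpleGraph V) (k : ℕ) {P : Type} [Group P] (g : V → P) : Type :=
  Σ σ : {σ : Finset V // G.IsClique (σ : Set V) ∧ σ.card = k + 1}, P ⧸ Cmp_H g σ.1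

private noncomputable instance Cmp_ft (G : SimpleGraph V) (k : ℕ) {P : Type} [Group P] [Fintype P]
    (g : V → P) : Fintype (Cmp_I G k g) := Fintype.ofFinite _

open Classical in
private noncomputable def Cmp_xt {G : SimpleGraph V} {k : ℕ} {P : Type} [Group P] {g : V → P}
    {F : Type} [Zero F] (x : Cmp_I G k g → F) (σ : Finset V) (p : P) : F :=
  if h : G.IsClique (σ : Set V) ∧ σ.card = k + 1 then x ⟨⟨σ, h⟩, (p : P ⧸ Cmp_H g σ)⟩ else 0

open Classical in
private noncomputable def Cmp_D (G : SimpleGraph V) (k : ℕ) {P : Type} [Group P] (g : V → P)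
    (e : P → ZMod 2) (ν : V → ℕ) : Matrix (Finset V × P) (Cmp_I G k g) ℤ := fun q c =>
  ∑ v ∈ q.1ᶜ, sg ν v q.1 *
    (if insert v q.1 = c.1.1 ∧ (q.2 : P ⧸ Cmp_H g c.1.1) = c.2 then Cmp_e e q.2 else 0)

open Classical in
private theorem Cmp_single {G : SimpleGraph V} {k : ℕ} {P : Type} [Group P] [Fintype P] {g : V → P}
    {F : Type} [Field F] (x : Cmp_I G k g → F) (σ : Finset V) (p : P) (a : ℤ) :
    ∑ c : Cmp_I G k g, ((if σ = c.1.1 ∧ (p : P ⧸ Cmp_H g c.1.1) = c.2 then a else 0 : ℤ) : F) *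
      x c = (a : F) * Cmp_xt x σ p := by
  unfold Cmp_xt
  by_cases h : G.IsClique (σ : Set V) ∧ σ.card = k + 1
  · rw [dif_pos h, Finset.sum_eq_single (⟨⟨σ, h⟩, (p : P ⧸ Cmp_H g σ)⟩ : Cmp_I G k g)]
    · rw [if_pos ⟨rfl, rfl⟩]
    · rintro ⟨⟨σ', h'⟩, c⟩ _ hne
      rw [if_neg, Int.cast_zero, zero_mul]
      rintro ⟨h1, h2⟩
      dsimp only at h1 h2
      subst h1
      subst h2
      exact hne rfl
    · intro h1
      exact absurd (Finset.mem_univ _) h1
  · rw [dif_neg h, mul_zero]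
    refine Finset.sum_eq_zero ?_
    rintro ⟨⟨σ', h'⟩, c⟩ _
    rw [if_neg, Int.cast_zero, zero_mul]
    rintro ⟨h1, -⟩
    dsimp only at h1
    subst h1
    exact h h'

private theorem Cmp_mulVec (G : SimpleGraph V) (k : ℕ) {P : Type} [Group P] [Fintype P]
    (g : V → P) (e : P → ZMod 2) (ν : V → ℕ) {F : Type} [Field F] (x : Cmp_I G k g → F)
    (τ : Finset V) (p : P) :
    (((Cmp_D G k g e ν).map (Int.cast : ℤ → F)).mulVec x) (τ, p) =
      ∑ v ∈ τᶜ, (sg ν v τ : F) * ((Cmp_e e p : F) * Cmp_xt x (insert v τ) p) := by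
  simp only [Matrix.mulVec, dotProduct, Matrix.map_apply, Cmp_D, Int.cast_sum, Int.cast_mul,
    Finset.sum_mul]
  rw [Finset.sum_comm]
  refine Finset.sum_congr rfl fun v _ => ?_
  rw [← Cmp_single x (insert v τ) p (Cmp_e e p), Finset.mul_sum]
  refine Finset.sum_congr rfl fun c _ => ?_
  rw [mul_assoc]

private theorem Cmp_ker (G : SimpleGraph V) (k : ℕ) {P : Type} [Group P] [Fintype P]
    (g : V → P) (e : P → ZMod 2) (ν : V → ℕ) (F : Type) [Field F] :
    Module.finrank F (LinearMap.ker ((Cmp_D G k g e ν).map (Int.cast : ℤ → F)).mulVecLin) +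
      ((Cmp_D G k g e ν).map (Int.cast : ℤ → F)).rank = Fintype.card (Cmp_I G k g) := by
  have h := LinearMap.finrank_range_add_finrank_ker
    ((Cmp_D G k g e ν).map (Int.cast : ℤ → F)).mulVecLin
  rw [Module.finrank_fintype_fun_eq_card] at h
  rw [add_comm]
  exact h

private theorem Cmp_up (G : SimpleGraph V) (k : ℕ) {P : Type} [Group P] [Fintype P]
    (g : V → P) (e : P → ZMod 2) (ν : V → ℕ) :
    Module.finrank K (LinearMap.ker ((Cmp_D G k g e ν).map (Int.cast : ℤ → K)).mulVecLin) ≤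
      dG K G (k + 1) g := by
  let Φ : (Cmp_I G k g → K) →ₗ[K] (Finset V → P → K) :=
    { toFun := fun x => Cmp_xt x
      map_add' := fun x y => by
        funext σ p
        simp only [Cmp_xt, Pi.add_apply]
        split_ifs <;> simp
      map_smul' := fun a x => by
        funext σ p
        simp only [Cmp_xt, Pi.smul_apply, RingHom.id_apply]
        split_ifs <;> simp }
  have hΦ : ∀ x σ p, Φ x σ p = Cmp_xt x σ p := fun _ _ _ => rfl
  have hinj : Function.Injective Φ := by
    intro x y hxy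
    funext c
    obtain ⟨⟨σ, h⟩, c⟩ := c
    obtain ⟨p, rfl⟩ := QuotientGroup.mk_surjective c
    have h1 : Φ x σ p = Φ y σ p := by rw [hxy]
    rw [hΦ, hΦ] at h1
    unfold Cmp_xt at h1
    rw [dif_pos h, dif_pos h] at h1
    exact h1
  have hmem : ∀ x : LinearMap.ker ((Cmp_D G k g e ν).map (Int.cast : ℤ → K)).mulVecLin,
      (Φ.domRestrict _) x ∈ Zs K G (k + 1) (rG K g) := by
    rintro ⟨x, hx⟩
    rw [LinearMap.mem_ker, Matrix.mulVecLin_apply] at hx
    show Φ x ∈ Zs K G (k + 1) (rG K g)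
    rw [mem_Zs]
    refine ⟨fun σ h => ?_, fun σ v hv => ?_, fun κ => ?_⟩
    · by_contra hc
      apply h
      funext p
      rw [hΦ]
      unfold Cmp_xt
      rw [dif_neg hc]
      rfl
    · funext p
      show Φ x σ (p * g v) = Φ x σ p
      rw [hΦ, hΦ]
      unfold Cmp_xt
      have h1 : ((p * g v : P) : P ⧸ Cmp_H g σ) = (p : P ⧸ Cmp_H g σ) := by
        rw [QuotientGroup.mk_mul_of_mem]
        exact Subgroup.subset_closure ⟨v, hv, rfl⟩
      rw [h1]
    · funext p
      have h1 := congrFun hx (κ, p)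
      rw [Cmp_mulVec] at h1
      rw [Finset.sum_apply]
      refine Eq.trans ?_ h1
      refine Finset.sum_congr rfl fun v _ => ?_
      have h5 : (sg ν v κ : K) = 1 := by
        unfold sg
        rw [Int.cast_pow, Int.cast_neg, Int.cast_one, CharTwo.neg_eq, one_pow]
      rw [h5, Cmp_e_two, one_mul, one_mul]
      rfl
  unfold dG
  refine LinearMap.finrank_le_finrank_of_injective
    (f := LinearMap.codRestrict (Zs K G (k + 1) (rG K g)) (Φ.domRestrict _) hmem) ?_
  intro x y hxy
  have h1 := congrArg Subtype.val hxy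
  exact Subtype.ext (hinj h1)

private theorem Cmp_inv {P : Type} [Group P] (g : V → P) (e : P → ZMod 2)
    (he : ∀ p q, e (p * q) = e p + e q) (heg : ∀ v, e (g v) = 1) {σ : Finset V}
    {f : P → ℂ} (hf : ∀ v ∈ σ, ∀ p, f (p * g v) = - f p) {h : P} (hh : h ∈ Cmp_H g σ) :
    ∀ p, (Cmp_e e (p * h) : ℂ) * f (p * h) = (Cmp_e e p : ℂ) * f p := by
  unfold Cmp_H at hh
  induction hh using Subgroup.closure_induction with
  | mem x hx =>
    obtain ⟨v, hv, rfl⟩ := hx
    intro p
    rw [hf v hv, Cmp_e_mul e he (heg v)]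
    push_cast
    ring
  | one => intro p; rw [mul_one]
  | mul x y _ _ hx hy =>
    intro p
    rw [← mul_assoc, hy (p * x), hx p]
  | inv x _ hx =>
    intro p
    have h1 := hx (p * x⁻¹)
    rw [inv_mul_cancel_right] at h1
    exact h1.symm

private theorem Cmp_low (G : SimpleGraph V) (k : ℕ) {P : Type} [Group P] [Fintype P]
    (g : V → P) (e : P → ZMod 2) (he : ∀ p q, e (p * q) = e p + e q)
    (heg : ∀ v, e (g v) = 1) (ν : V → ℕ) :
    Module.finrank ℂ (YZ ℂ G univ (fun _ => (1 : Matrix Unit Unit ℂ)) (fun v x => x * g v) ν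
      (k + 1)) ≤
    Module.finrank ℂ (LinearMap.ker ((Cmp_D G k g e ν).map (Int.cast : ℤ → ℂ)).mulVecLin) := by
  let Ψ : (Finset V → P → Unit → ℂ) →ₗ[ℂ] (Cmp_I G k g → ℂ) :=
    { toFun := fun f c => (Cmp_e e c.2.out : ℂ) * f c.1.1 c.2.out ()
      map_add' := fun f f' => by
        funext c
        simp only [Pi.add_apply]
        ring
      map_smul' := fun a f => by
        funext c
        simp only [Pi.smul_apply, smul_eq_mul, RingHom.id_apply]
        ring }
  have hΨ : ∀ f c, Ψ f c = (Cmp_e e c.2.out : ℂ) * f c.1.1 c.2.out () := fun _ _ => rfl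
  have hsq : ∀ p, (Cmp_e e p : ℂ) * (Cmp_e e p : ℂ) = 1 := by
    intro p
    rw [← Int.cast_mul, Cmp_e_sq, Int.cast_one]
  have hxt : ∀ f ∈ YZ ℂ G univ (fun _ => (1 : Matrix Unit Unit ℂ)) (fun v x => x * g v) ν (k + 1),
      ∀ σ p, Cmp_xt (Ψ f) σ p = (Cmp_e e p : ℂ) * f σ p () := by
    rintro f ⟨⟨h1, h2⟩, -⟩ σ p
    unfold Cmp_xt
    split_ifs with h
    · rw [hΨ]
      dsimp only
      obtain ⟨y, hy⟩ := QuotientGroup.mk_out_eq_mul (Cmp_H g σ) p
      rw [hy]
      refine Cmp_inv g e he heg (f := fun q => f σ q ()) (fun v hv q => ?_) y.2 p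
      have h3 : f σ (q * g v) = -((1 : Matrix Unit Unit ℂ).mulVec (f σ q)) := h2 σ v hv q
      rw [Matrix.one_mulVec] at h3
      have h4 := congrFun h3 ()
      exact h4
    · have h3 : f σ p = 0 := by
        by_contra hc
        obtain ⟨-, h4, h5⟩ := h1 σ p hc
        apply h
        refine ⟨?_, h5⟩
        intro u hu v hv huv
        exact h4 u hu v hv huv
      rw [h3]
      simp
  have hmem : ∀ f : YZ ℂ G univ (fun _ => (1 : Matrix Unit Unit ℂ)) (fun v x => x * g v) ν (k + 1),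
      (Ψ.domRestrict _) f ∈
        LinearMap.ker ((Cmp_D G k g e ν).map (Int.cast : ℤ → ℂ)).mulVecLin := by
    rintro ⟨f, hf⟩
    show Ψ f ∈ _
    rw [LinearMap.mem_ker, Matrix.mulVecLin_apply]
    funext q
    obtain ⟨τ, p⟩ := q
    rw [Cmp_mulVec]
    have h3 : tdl ℂ ν f = 0 := hf.2
    have h4 := congrFun (congrFun (congrFun h3 τ) p) ()
    have h5 : (tdl ℂ ν f) τ p () = ∑ v ∈ τᶜ, (sg ν v τ : ℂ) * f (insert v τ) p () := by
      show (∑ v ∈ τᶜ, (sg ν v τ : ℂ) • f (insert v τ) p) () = _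
      rw [Finset.sum_apply]
      rfl
    rw [h5] at h4
    refine Eq.trans ?_ h4
    refine Finset.sum_congr rfl fun v _ => ?_
    rw [hxt f hf, ← mul_assoc (Cmp_e e p : ℂ), hsq, one_mul]
  refine LinearMap.finrank_le_finrank_of_injective
    (f := LinearMap.codRestrict (LinearMap.ker
      ((Cmp_D G k g e ν).map (Int.cast : ℤ → ℂ)).mulVecLin) (Ψ.domRestrict _) hmem) ?_
  intro f f' hff
  have h1 : Ψ f.1 = Ψ f'.1 := congrArg Subtype.val hff
  apply Subtype.ext
  funext σ p u
  have h2 : (Cmp_e e p : ℂ) * f.1 σ p () = (Cmp_e e p : ℂ) * f'.1 σ p () := by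
    rw [← hxt f.1 f.2, ← hxt f'.1 f'.2, h1]
  have h3 := congrArg (fun z => (Cmp_e e p : ℂ) * z) h2
  simp only [← mul_assoc, hsq, one_mul] at h3
  exact h3

/-- **Comparison of the Betti numbers.** `bP ℂ G univ g ν i ≤ finrank (YZ …)`, the space of the
antisymmetric cycles; the map `f ↦ (-1)^(e p) f` turns antisymmetric functions into functions which
are invariant under the `g v`, `v ∈ σ`, i.e. functions on the cosets of `closure (g '' σ)`. Both spaces
of cycles are then the kernels of one integer matrix `D` (rows `(τ, p)`, columns `(σ, coset)`, `σ` a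
clique with `k + 1` elements; entries `± 1` or `0`) over `ℂ` and over `K`
(signs are `1` in `K`), and `rank_int_le D K` in `Pool.Agent.H4.Singer.RankInt` gives
`rank over K ≤ rank over ℂ`. For `i > k + 1` there are no chains. (Compare
`Pool.Agent.H4.Singer.RankCompare` and `Pool.Agent.H77.SW.bet_le_dz`.) -/
theorem bP_le (G : SimpleGraph V) (k : ℕ)
    (hdim : ∀ σ : Finset V, G.IsClique (σ : Set V) → σ.card ≤ k + 1) {P : Type} [Group P]
    [Fintype P] (g : V → P) (hsq : ∀ v, g v * g v = 1) (e : P → ZMod 2)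
    (he : ∀ p q, e (p * q) = e p + e q) (heg : ∀ v, e (g v) = 1) (ν : V → ℕ)
    (hν : Function.Injective ν) (i : ℕ) (hi : k < i) :
    bP ℂ G univ g ν i ≤ dG K G (k + 1) g := by
  unfold bP bY
  refine (Nat.sub_le _ _).trans ?_
  by_cases h1 : i = k + 1
  · subst h1
    refine (Cmp_low G k g e he heg ν).trans (le_trans ?_ (Cmp_up (K := K) G k g e ν))
    have h2 := Cmp_ker G k g e ν ℂ
    have h3 := Cmp_ker G k g e ν K
    have h4 := rank_int_le (Cmp_D G k g e ν) K
    omega
  · have h2 : YZ ℂ G univ (fun _ => (1 : Matrix Unit Unit ℂ)) (fun v x => x * g v) ν i = ⊥ := by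
      rw [eq_bot_iff]
      rintro f ⟨⟨h3, -⟩, -⟩
      rw [Submodule.mem_bot]
      funext σ p
      by_contra hc
      obtain ⟨-, h4, h5⟩ := h3 σ p hc
      have h6 : G.IsClique (σ : Set V) := by
        intro u hu v hv huv
        exact h4 u hu v hv huv
      have h7 := hdim σ h6
      omega
    rw [h2, finrank_bot]
    exact Nat.zero_le _

end Pool.Agent.H77.SX
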