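import Pool.Agent.H77.SX.Defs
import Pool.Agent.H4.FC.FinalL

/-!
# Singer without colours for Coxeter groups of FC type: congruence quotients of the Tits representation
-/

set_option autoImplicit false
set_option linter.unusedSectionVars false

open Finset

namespace Pool.Agent.H77.SX

open Pool.Agent.H77.SW

open Filter

variable {V : Type} [DecidableEq V] [Fintype V]

/-! ### The reflection matrices -/

private theorem Tits_row {R : Type} [CommRing R] (c : V → V → R) {u v : V} (h : u ≠ v) :
    (Pool.Agent.H4.FC.refl c v) u = (1 : Matrix V V R) u := by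
  funext j
  unfold Pool.Agent.H4.FC.refl
  rw [Matrix.sub_apply, Matrix.of_apply, if_neg h, sub_zero]

private theorem Tits_det {R : Type} [CommRing R] (c : V → V → R) (v : V) (hc : c v v = 2) :
    (Pool.Agent.H4.FC.refl c v).det = -1 := by
  have h1 : Pool.Agent.H4.FC.refl c v =
      (1 : Matrix V V R).updateRow v (fun j => (1 : Matrix V V R) v j - c v j) := by
    ext i j
    rw [Matrix.updateRow_apply]
    unfold Pool.Agent.H4.FC.refl
    rw [Matrix.sub_apply, Matrix.of_apply]
    by_cases hi : i = v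
    · rw [if_pos hi, if_pos hi, hi]
    · rw [if_neg hi, if_neg hi, sub_zero]
  rw [h1, ← Matrix.cramer_transpose_apply, Matrix.transpose_one, Matrix.cramer_one]
  show (1 : Matrix V V R) v v - c v v = -1
  rw [Matrix.one_apply_eq, hc]
  norm_num

/-! ### The congruence quotients -/

section quot

variable {R : Type} [CommRing R]

/-- the ring modulo `2 ^ n` -/
private abbrev Tits_Q (R : Type) [CommRing R] (n : ℕ) : Type := R ⧸ Ideal.span {(2 : R) ^ n}

/-- the congruence quotient -/
private noncomputable def Tits_hom (M : CoxeterMatrix V) (T : M.Group →* Matrix V V R) (n : ℕ) :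
    M.Group →* (Matrix V V (Tits_Q R n))ˣ × Multiplicative (ZMod 2) :=
  ((((Ideal.Quotient.mk (Ideal.span {(2 : R) ^ n})).mapMatrix : Matrix V V R →+*
    Matrix V V (Tits_Q R n)) : Matrix V V R →* Matrix V V (Tits_Q R n)).comp T).toHomUnits.prod
      M.toCoxeterSystem.lengthParity

private theorem Tits_hom_val (M : CoxeterMatrix V) (T : M.Group →* Matrix V V R) (n : ℕ)
    (w : M.Group) (a b : V) : ((Tits_hom M T n w).1 : Matrix V V (Tits_Q R n)) a b =
      Ideal.Quotient.mk (Ideal.span {(2 : R) ^ n}) (T w a b) := rfl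

private theorem Tits_hom_snd (M : CoxeterMatrix V) (T : M.Group →* Matrix V V R) (n : ℕ)
    (w : M.Group) : (Tits_hom M T n w).2 = M.toCoxeterSystem.lengthParity w := rfl

private theorem Tits_fst_one (M : CoxeterMatrix V) (T : M.Group →* Matrix V V R) (n : ℕ)
    (w : M.Group) : (Tits_hom M T n w).1 = 1 ↔ ∀ a b, (2 : R) ^ n ∣ (T w - 1) a b := by
  have key : ∀ a b, (Ideal.Quotient.mk (Ideal.span {(2 : R) ^ n}) (T w a b) =
      (1 : Matrix V V (Tits_Q R n)) a b) ↔ (2 : R) ^ n ∣ (T w - 1) a b := by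
    intro a b
    rw [Matrix.sub_apply, ← Ideal.mem_span_singleton, ← Ideal.Quotient.eq]
    have : Ideal.Quotient.mk (Ideal.span {(2 : R) ^ n}) ((1 : Matrix V V R) a b) =
        (1 : Matrix V V (Tits_Q R n)) a b := by
      by_cases h : a = b
      · rw [h, Matrix.one_apply_eq, Matrix.one_apply_eq, map_one]
      · rw [Matrix.one_apply_ne h, Matrix.one_apply_ne h, map_zero]
    rw [this]
  constructor
  · intro h a b
    rw [← key, ← Tits_hom_val, h]
    rfl
  · intro h
    apply Units.ext
    ext a b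
    rw [Tits_hom_val, (key a b).2 (h a b)]
    rfl

/-- powers of two of matrices which are `1` modulo two -/
private theorem Tits_pow (X : Matrix V V R) (h : ∃ A : Matrix V V R, X = 1 + (2 : R) ^ 1 • A)
    (m : ℕ) : ∃ A : Matrix V V R, X ^ 2 ^ m = 1 + (2 : R) ^ (m + 1) • A := by
  induction m with
  | zero => simpa using h
  | succ m ih =>
    obtain ⟨A, hA⟩ := ih
    refine ⟨A + (2 : R) ^ m • (A * A), ?_⟩
    have e0 : ∀ Y : Matrix V V R, (1 + Y) * (1 + Y) = 1 + ((Y + Y) + Y * Y) := by
      intro Y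
      noncomm_ring
    have e1 : (2 : R) ^ (m + 1 + 1) • A = (2 : R) ^ (m + 1) • A + (2 : R) ^ (m + 1) • A := by
      rw [← add_smul]
      congr 1
      ring
    have e2 : (2 : R) ^ (m + 1 + 1) * (2 : R) ^ m = (2 : R) ^ (m + 1) * (2 : R) ^ (m + 1) := by
      ring
    rw [pow_succ 2 m, pow_mul, hA, sq, e0, smul_add, e1, smul_smul, e2, smul_mul_assoc,
      mul_smul_comm, smul_smul]

private theorem Tits_two (M : CoxeterMatrix V) (T : M.Group →* Matrix V V R) (j : ℕ)
    (w : M.Group) (h : Tits_hom M T 1 w = 1) : Tits_hom M T (j + 2) w ^ 2 ^ (j + 1) = 1 := by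
  have h1 := (Tits_fst_one M T 1 w).1 (congrArg Prod.fst h)
  have h2 : M.toCoxeterSystem.lengthParity w = 1 := congrArg Prod.snd h
  choose A hA using h1
  obtain ⟨B, hB⟩ := Tits_pow (T w) ⟨Matrix.of A, by
    ext a b
    rw [Matrix.add_apply, Matrix.smul_apply, Matrix.of_apply, smul_eq_mul, ← hA,
      Matrix.sub_apply]
    ring⟩ (j + 1)
  rw [← map_pow]
  apply Prod.ext
  · refine (Tits_fst_one M T (j + 2) _).2 ?_
    intro a b
    rw [map_pow, hB, Matrix.sub_apply, Matrix.add_apply, Matrix.smul_apply, smul_eq_mul,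
      add_sub_cancel_left]
    exact Dvd.intro _ rfl
  · rw [Tits_hom_snd, map_pow, h2, one_pow]
    rfl

private theorem Tits_ker (M : CoxeterMatrix V) (T : M.Group →* Matrix V V R) {m n : ℕ}
    (h : m ≤ n) (w : M.Group) (hw : Tits_hom M T n w = 1) : Tits_hom M T m w = 1 := by
  apply Prod.ext
  · have h1 := (Tits_fst_one M T n w).1 (congrArg Prod.fst hw)
    exact (Tits_fst_one M T m w).2 fun a b => (pow_dvd_pow 2 h).trans (h1 a b)
  · have h2 : M.toCoxeterSystem.lengthParity w = 1 := congrArg Prod.snd hw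
    exact h2

/-- the sign of a matrix -/
private theorem Tits_par (M : CoxeterMatrix V) (T : M.Group →* Matrix V V R) {c : V → V → R}
    (hT : ∀ v, T (M.simple v) = Pool.Agent.H4.FC.refl c v) (hc : ∀ v, c v v = 2) (w : M.Group) :
    (M.toCoxeterSystem.lengthParity w = 1 ∧ (T w).det = 1) ∨
      (M.toCoxeterSystem.lengthParity w = Multiplicative.ofAdd 1 ∧ (T w).det = -1) := by
  induction w using M.toCoxeterSystem.simple_induction_left with
  | one => left; rw [map_one, map_one, Matrix.det_one]; exact ⟨rfl, rfl⟩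
  | mul_simple_left w i ih =>
    rw [map_mul, map_mul, Matrix.det_mul, M.toCoxeterSystem.lengthParity_simple,
      M.toCoxeterSystem_simple, hT, Tits_det c i (hc i)]
    rcases ih with ⟨h1, h2⟩ | ⟨h1, h2⟩
    · right
      rw [h1, h2, mul_one, mul_one]
      exact ⟨rfl, rfl⟩
    · left
      rw [h1, h2]
      refine ⟨?_, by ring⟩
      decide

private theorem Tits_sign [IsDomain R] (M : CoxeterMatrix V) (T : M.Group →* Matrix V V R)
    {c : V → V → R} (hT : ∀ v, T (M.simple v) = Pool.Agent.H4.FC.refl c v)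
    (hc : ∀ v, c v v = 2) (h2 : ¬ IsUnit (2 : R)) (hne : (2 : R) ≠ 0) (n : ℕ) (w : M.Group)
    (hw : (Tits_hom M T (n + 2) w).1 = 1) : Tits_hom M T (n + 2) w = 1 := by
  apply Prod.ext hw
  rcases Tits_par M T hT hc w with h | h
  · exact h.1
  · exfalso
    have h1 : Ideal.Quotient.mk (Ideal.span {(2 : R) ^ (n + 2)}) (T w).det = 1 := by
      rw [RingHom.map_det]
      have : (Ideal.Quotient.mk (Ideal.span {(2 : R) ^ (n + 2)})).mapMatrix (T w) = 1 :=
        congrArg Units.val hw
      rw [this, Matrix.det_one]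
    rw [h.2, ← map_one (Ideal.Quotient.mk (Ideal.span {(2 : R) ^ (n + 2)})), Ideal.Quotient.eq,
      Ideal.mem_span_singleton] at h1
    obtain ⟨r, hr⟩ := h1
    apply h2
    have h3 : (2 : R) * (2 * 2 ^ n * (-r) - 1) = 0 := by
      have : (2 : R) ^ (n + 2) * r = 2 * (2 * 2 ^ n * r) := by ring
      rw [this] at hr
      linear_combination hr
    have h4 := (mul_eq_zero.1 h3).resolve_left hne
    exact IsUnit.of_mul_eq_one (2 ^ n * (-r)) (by linear_combination h4)

/-- the rows of the matrices in the subgroup generated by a set of reflections -/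
private theorem Tits_rows (M : CoxeterMatrix V) (T : M.Group →* Matrix V V R) {c : V → V → R}
    (hT : ∀ v, T (M.simple v) = Pool.Agent.H4.FC.refl c v) (n : ℕ) (S : Set V) {u : V}
    (hu : u ∉ S) (x : (Tits_hom M T n).range)
    (hx : x ∈ Subgroup.closure ((fun v => (Tits_hom M T n).rangeRestrict (M.simple v)) '' S)) :
    (x.1.1 : Matrix V V (Tits_Q R n)) u = (1 : Matrix V V (Tits_Q R n)) u := by
  induction hx using Subgroup.closure_induction with
  | mem x hx =>
    obtain ⟨v, hv, rfl⟩ := hx
    have huv : u ≠ v := fun h => hu (h ▸ hv)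
    funext j
    show Ideal.Quotient.mk (Ideal.span {(2 : R) ^ n}) (T (M.simple v) u j) = _
    rw [hT, Tits_row c huv]
    by_cases h : u = j
    · rw [h, Matrix.one_apply_eq, Matrix.one_apply_eq, map_one]
    · rw [Matrix.one_apply_ne h, Matrix.one_apply_ne h, map_zero]
  | one => rfl
  | mul x y _ _ hx hy =>
    have h1 : ((x * y).1.1 : Matrix V V (Tits_Q R n)) =
        (x.1.1 : Matrix V V (Tits_Q R n)) * (y.1.1 : Matrix V V (Tits_Q R n)) := rfl
    rw [h1]
    funext j
    rw [Matrix.mul_apply, hx, ← Matrix.mul_apply, one_mul, hy]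
  | inv x _ hx =>
    have h1 : (x.1.1 : Matrix V V (Tits_Q R n)) * (x⁻¹.1.1 : Matrix V V (Tits_Q R n)) = 1 := by
      have h2 : x * x⁻¹ = 1 := mul_inv_cancel x
      have h3 := congrArg (fun y : (Tits_hom M T n).range => (y.1.1 : Matrix V V (Tits_Q R n))) h2
      exact h3
    funext j
    have h2 := congrFun (congrFun h1 u) j
    rw [Matrix.mul_apply, hx, ← Matrix.mul_apply, one_mul] at h2
    exact h2

private theorem Tits_abs [IsDomain R] (M : CoxeterMatrix V) (T : M.Group →* Matrix V V R)
    {c : V → V → R} (hT : ∀ v, T (M.simple v) = Pool.Agent.H4.FC.refl c v)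
    (hinj : Function.Injective T) (hc : ∀ v, c v v = 2) (h2 : ¬ IsUnit (2 : R))
    (hne : (2 : R) ≠ 0) (hfin : ∀ n, Finite (Tits_Q R n))
    (hsep : ∀ r : R, r ≠ 0 → ∃ n, ¬ (2 : R) ^ n ∣ r) :
    ∃ (Ps : Type) (_ : Group Ps) (_ : Fintype Ps) (πs : M.Group →* Ps) (e : Ps → ZMod 2)
      (P : ℕ → Type) (_ : ∀ j, Group (P j)) (_ : ∀ j, Fintype (P j))
      (D : ∀ j, FQ M πs (P j)),
      (∀ p q, e (p * q) = e p + e q) ∧ (∀ v, e (πs (M.simple v)) = 1) ∧
      (∀ w : M.Group, w ≠ 1 → ∀ᶠ j in atTop, (D j).π w ≠ 1) ∧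
      ∀ j, LinkGood (Pool.Agent.H4.FC.gr M) (D j).g := by
  classical
  have hfin2 : ∀ n, Finite (Tits_hom M T n).range := by
    intro n
    have := hfin n
    have h3 : Finite (Matrix V V (Tits_Q R n)) := inferInstanceAs (Finite (V → V → Tits_Q R n))
    have h4 : Finite ((Matrix V V (Tits_Q R n))ˣ) :=
      Finite.of_injective (Units.val : (Matrix V V (Tits_Q R n))ˣ → _) Units.val_injective
    have h5 : Finite (Multiplicative (ZMod 2)) := inferInstanceAs (Finite (ZMod 2))
    infer_instance
  have hker : ∀ j, (Tits_hom M T (j + 2)).rangeRestrict.ker ≤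
      (Tits_hom M T 1).rangeRestrict.ker := by
    intro j w hw
    rw [MonoidHom.mem_ker] at hw ⊢
    have h1 : Tits_hom M T (j + 2) w = 1 := congrArg Subtype.val hw
    exact Subtype.ext (Tits_ker M T (by omega) w h1)
  have hsurj : ∀ n, Function.Surjective (Tits_hom M T n).rangeRestrict :=
    fun n => (Tits_hom M T n).rangeRestrict_surjective
  let D : ∀ j, FQ M (Tits_hom M T 1).rangeRestrict (Tits_hom M T (j + 2)).range := fun j =>
    { π := (Tits_hom M T (j + 2)).rangeRestrict
      surj := hsurj (j + 2)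
      κ := (Tits_hom M T (j + 2)).rangeRestrict.liftOfSurjective (hsurj (j + 2))
        ⟨(Tits_hom M T 1).rangeRestrict, hker j⟩
      κπ := fun w => MonoidHom.liftOfRightInverse_comp_apply _ _ _ _ w
      two := by
        rintro ⟨x, hx⟩
        obtain ⟨w, rfl⟩ := hsurj (j + 2) x
        refine ⟨j + 1, Subtype.ext (Subtype.ext ?_)⟩
        rw [MonoidHom.mem_ker, MonoidHom.liftOfSurjective,
          MonoidHom.liftOfRightInverse_comp_apply] at hx
        exact Tits_two M T j w (congrArg Subtype.val hx) }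
  refine ⟨(Tits_hom M T 1).range, inferInstance, @Fintype.ofFinite _ (hfin2 1),
    (Tits_hom M T 1).rangeRestrict, fun p => Multiplicative.toAdd p.1.2,
    fun j => (Tits_hom M T (j + 2)).range, fun j => inferInstance,
    fun j => @Fintype.ofFinite _ (hfin2 (j + 2)), D, fun p q => rfl, fun v => ?_, ?_, ?_⟩
  · show Multiplicative.toAdd (M.toCoxeterSystem.lengthParity (M.simple v)) = 1
    rw [← M.toCoxeterSystem_simple, M.toCoxeterSystem.lengthParity_simple]
    rfl
  · intro w hw
    have h1 : T w - 1 ≠ 0 := by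
      intro h0
      apply hw
      apply hinj
      rw [map_one]
      exact sub_eq_zero.1 h0
    obtain ⟨a, b, hab⟩ : ∃ a b, (T w - 1) a b ≠ 0 := by
      by_contra hcon
      push Not at hcon
      exact h1 (Matrix.ext hcon)
    obtain ⟨n, hn⟩ := hsep _ hab
    filter_upwards [eventually_ge_atTop n] with j hj h
    have h3 : Tits_hom M T (j + 2) w = 1 := congrArg Subtype.val h
    exact hn ((pow_dvd_pow 2 (by omega)).trans
      ((Tits_fst_one M T (j + 2) w).1 (congrArg Prod.fst h3) a b))
  · intro j σ hσ x hx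
    obtain ⟨w, rfl⟩ := hsurj (j + 2) x
    refine Subtype.ext (Tits_sign M T hT hc h2 hne j w ?_)
    apply Units.ext
    funext u
    obtain ⟨v, hv, huv⟩ := hσ u
    exact Tits_rows M T hT (j + 2) {u | (Pool.Agent.H4.FC.gr M).Adj v u} huv _ (hx v hv)

end quot

/-- **Congruence quotients** (note 3789, T1). As in the proof of
`Pool.Agent.H4.FC.exists_int_faithful` (`TitsInt`: number field `L`, `c : V → V → 𝓞 L`, the matrices
`refl c v` over `𝓞 L` satisfy the Coxeter relations and give an injective homomorphism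
`T : M.Group → Matrix V V (𝓞 L)`). Let `P j` be the range of the homomorphism
`M.Group → (Matrix V V (𝓞 L ⧸ (2 ^ (j + 2))))ˣ × Multiplicative (ZMod 2)` (reduction of `T`; the sign
`simple v ↦ ofAdd 1`), `Ps` the range for `𝓞 L ⧸ (2)` instead.
* The kernel of `P j → Ps` is a two-group: matrices `1 + 2 A` have order a power of two modulo
`2 ^ (j + 2)`.
* Separation: a nonzero entry of `T w - 1` is not divisible by `2 ^ (j + 2)` for large `j`.
* `LinkGood`: for `w ∈ M.Group` in the subgroup generated by `simple u`, `u ∈ S`, the image of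
`T w - 1` is in the span of the `e u`, `u ∈ S` (modulo `2 ^ (j + 2)`), i.e. the rows (or columns,
according to the definition of `refl`) with index outside `S` of the reduction are those of `1`. If `x`
is in the subgroups of the links of all `v ∈ σ` then each row index is outside some link, so the matrix
is `1`; its determinant is `(-1)^(sign)` in `𝓞 L ⧸ (2 ^ (j + 2))`, where `-1 ≠ 1`, so the sign is
`0`. -/
theorem exists_tower (M : CoxeterMatrix V) :
    ∃ (Ps : Type) (_ : Group Ps) (_ : Fintype Ps) (πs : M.Group →* Ps) (e : Ps → ZMod 2)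
      (P : ℕ → Type) (_ : ∀ j, Group (P j)) (_ : ∀ j, Fintype (P j))
      (D : ∀ j, FQ M πs (P j)),
      (∀ p q, e (p * q) = e p + e q) ∧ (∀ v, e (πs (M.simple v)) = 1) ∧
      (∀ w : M.Group, w ≠ 1 → ∀ᶠ j in atTop, (D j).π w ≠ 1) ∧
      ∀ j, LinkGood (Pool.Agent.H4.FC.gr M) (D j).g := by
  open Pool.Agent.H4.FC in
  have hy : ∀ p : V × V, IsIntegral ℤ (kR M p.1 p.2) := by
    intro p
    unfold kR
    split_ifs
    · have h2 : ((-2 : ℤ) : ℝ) = -2 := by norm_num
      rw [← h2]
      exact isIntegral_algebraMap (R := ℤ) (x := (-2 : ℤ))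
    · have h2 : -2 * Real.cos (Real.pi / M p.1 p.2) =
          -(2 * Real.cos (Real.pi / M p.1 p.2)) := by ring
      rw [h2]
      exact (two_cos_integral _).neg
  obtain ⟨K, iK, iN, τ, w, hw⟩ :=
    Pool.Agent.H85.Fold2.exists_numberField_int
      (fun p : V × V => Pool.Agent.H4.FC.kR M p.1 p.2) hy
  let f : NumberField.RingOfIntegers K →+* ℝ :=
    τ.comp (algebraMap (NumberField.RingOfIntegers K) K)
  have hf : Function.Injective f :=
    τ.injective.comp (NumberField.RingOfIntegers.coe_injective)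
  let c : V → V → NumberField.RingOfIntegers K := fun u v => w (u, v)
  have hfc : ∀ u v, f (c u v) = Pool.Agent.H4.FC.kR M u v := fun u v => hw (u, v)
  have hc : ∀ v, (Pool.Agent.H4.FC.refl c v).map f =
      Pool.Agent.H4.FC.refl (Pool.Agent.H4.FC.kR M) v := by
    intro v
    rw [Pool.Agent.H4.FC.refl_map]
    congr 1
    funext u v
    exact hw (u, v)
  have hF : Function.Injective (fun X : Matrix V V (NumberField.RingOfIntegers K) => X.map f) :=
    Matrix.map_injective hf
  have hrel : M.IsLiftable (Pool.Agent.H4.FC.refl c) := by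
    intro u v
    have h1 : f.mapMatrix ((Pool.Agent.H4.FC.refl c u * Pool.Agent.H4.FC.refl c v) ^ M u v) =
        f.mapMatrix 1 := by
      rw [map_pow, map_mul, map_one]
      show ((Pool.Agent.H4.FC.refl c u).map f * (Pool.Agent.H4.FC.refl c v).map f) ^ M u v = 1
      rw [hc, hc]
      exact Pool.Agent.H4.FC.refl_rel M u v
    exact hF h1
  let g : M.Group →* Matrix V V (NumberField.RingOfIntegers K) :=
    M.toCoxeterSystem.lift ⟨Pool.Agent.H4.FC.refl c, hrel⟩
  have hgs : ∀ v, g (M.toCoxeterSystem.simple v) = Pool.Agent.H4.FC.refl c v :=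
    fun v => M.toCoxeterSystem.lift_apply_simple hrel v
  have hg : (f.mapMatrix : Matrix V V (NumberField.RingOfIntegers K) →+*
      Matrix V V ℝ).toMonoidHom.comp g = Pool.Agent.H4.FC.titsHom M := by
    apply M.toCoxeterSystem.ext_simple
    intro v
    show f.mapMatrix (g (M.toCoxeterSystem.simple v)) = _
    rw [Pool.Agent.H4.FC.titsHom_simple, hgs]
    exact hc v
  have hgi : Function.Injective g := by
    intro x y hxy
    apply Pool.Agent.H4.FC.tits_injective M
    rw [← hg]
    show f.mapMatrix (g x) = f.mapMatrix (g y)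
    rw [hxy]
  have hne : (2 : NumberField.RingOfIntegers K) ≠ 0 := by
    intro h
    have h1 := congrArg f h
    rw [map_ofNat, map_zero] at h1
    exact two_ne_zero h1
  have h2 : ¬ IsUnit (2 : NumberField.RingOfIntegers K) := by
    intro h
    obtain ⟨u, hu⟩ := h.exists_right_inv
    have h1 : IsIntegral ℤ (f u) := (NumberField.RingOfIntegers.isIntegral u).map
      (f.toIntAlgHom : NumberField.RingOfIntegers K →ₐ[ℤ] ℝ)
    have h3 : f u = algebraMap ℚ ℝ (1 / 2) := by
      have h4 := congrArg f hu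
      rw [map_mul, map_ofNat, map_one] at h4
      have : algebraMap ℚ ℝ (1 / 2) = 1 / 2 := by norm_num
      rw [this]
      linarith
    rw [h3] at h1
    have h5 : IsIntegral ℤ (1 / 2 : ℚ) :=
      (isIntegral_algHom_iff (algebraMap ℚ ℝ).toIntAlgHom (algebraMap ℚ ℝ).injective).1 h1
    obtain ⟨z, hz⟩ := IsIntegrallyClosed.isIntegral_iff.1 h5
    have h6 : (2 : ℚ) * z = 1 := by
      have : (algebraMap ℤ ℚ z) = (z : ℚ) := rfl
      rw [← this, hz]
      norm_num
    have h7 : (2 : ℤ) * z = 1 := by exact_mod_cast h6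
    omega
  refine Tits_abs M g (c := c) (fun v => ?_) hgi (fun v => ?_) h2 hne (fun n => ?_)
    (fun r hr => ?_)
  · rw [← M.toCoxeterSystem_simple]
    exact hgs v
  · apply hf
    rw [hfc, Pool.Agent.H4.FC.kR_self, map_ofNat]
  · refine Ideal.finiteQuotientOfFreeOfNeBot _ ?_
    rw [Ne, Ideal.span_singleton_eq_bot]
    exact pow_ne_zero n hne
  · by_contra hcon
    push Not at hcon
    have h1 : Ideal.span {(2 : NumberField.RingOfIntegers K)} ≠ ⊤ := by
      rw [Ne, Ideal.span_singleton_eq_top]
      exact h2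
    have h3 := Ideal.iInf_pow_eq_bot_of_isDomain _ h1
    apply hr
    have h4 : r ∈ ⨅ i : ℕ, Ideal.span {(2 : NumberField.RingOfIntegers K)} ^ i := by
      rw [Ideal.mem_iInf]
      intro i
      rw [Ideal.span_singleton_pow, Ideal.mem_span_singleton]
      exact hcon i
    rw [h3] at h4
    exact h4

end Pool.Agent.H77.SX
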