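import Pool.Agent.H77.SX.Count
import Pool.Agent.H77.SX.Cmp
import Pool.Agent.H77.SX.Tits
import Pool.Agent.H77.SW.Seq
import Pool.Agent.H4.FC.FinalL
import Pool.Agent.H4.FD.Defs

/-!
# Singer without colours for Coxeter groups of FC type: the main theorem
-/

set_option autoImplicit false
set_option linter.unusedSectionVars false

open Finset Filter Topology

namespace Pool.Agent.H77.SX

open Pool.Agent.H77.SW Pool.Agent.H4.FC Pool.Agent.H4.Atiyah Pool.Agent.H85.VK
  Pool.Agent.H85.Fold2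

variable {V : Type} [DecidableEq V] [Fintype V]

/-- **The main theorem for Coxeter groups of FC type.** -/
theorem fc_all (M : CoxeterMatrix V) (hM : Pool.Agent.H4.FD.IsFC M) (k : ℕ)
    (hdim : ∀ σ : Finset V, (gr M).IsClique (σ : Set V) → σ.card ≤ k + 1)
    (hvk : VanKampenZero (gr M) k) (i : ℕ) (hi : k < i) :
    Pool.Agent.H4.FC.L2HomologyZero M i := by
  classical
  intro ν hν z hz hdz ε hε
  have hS : ∀ σ, Sph M σ ↔ Pool.Agent.H85.Fold.Cl (gr M) σ := fun σ => ⟨sph_cl M σ, hM σ⟩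
  refine l2_hodgeL M ν hν i ?_ z hz hdz ε hε
  obtain ⟨K, _, _, ⟨X⟩⟩ := exists_genSeq
  obtain ⟨Ps, _, _, πs, e, P₁, grp₁, fin₁, D, he, heg, hsep, hgood⟩ := exists_tower M
  have h2 := fun j : ℕ => small X M k hdim hvk πs e he heg
    ⟨P₁ 0, grp₁ 0, fin₁ 0, D 0, hgood 0⟩ (1 / (j + 1 : ℝ)) (by positivity)
  choose P₂ grp₂ fin₂ E hE using h2
  let Pr : ∀ j, M.Group →* P₁ j × P₂ j := fun j => (D j).π.prod (E j).π
  let P : ℕ → Type := fun j => (Pr j).range
  let fin : ∀ j, Fintype (P j) := fun j => Fintype.ofFinite _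
  let π : ∀ j, M.Group →* P j := fun j => (Pr j).rangeRestrict
  have hsep' : ∀ w : M.Group, w ≠ 1 → ∀ᶠ j in atTop, π j w ≠ 1 := by
    intro w hw
    filter_upwards [hsep w hw] with j hj h
    exact hj (congrArg (fun x : P j => x.1.1) h)
  let q : ∀ j, P j →* P₂ j := fun j => (MonoidHom.snd (P₁ j) (P₂ j)).comp (Pr j).range.subtype
  have hq : ∀ j w, q j (π j w) = (E j).π w := fun j w => rfl
  have hqs : ∀ j, Function.Surjective (q j) := by
    intro j y
    obtain ⟨w, hw⟩ := (E j).surj y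
    exact ⟨π j w, (hq j w).trans hw⟩
  have hq2 : ∀ j, IsPGroup 2 (q j).ker := by
    rintro j ⟨x, hx⟩
    have hx2 : x.1.2 = 1 := hx
    have hx1 : x.1.1 ∈ (D j).κ.ker := by
      obtain ⟨w, hw⟩ := x.2
      have h3 : (D j).π w = x.1.1 := congrArg Prod.fst hw
      have h4 : (E j).π w = x.1.2 := congrArg Prod.snd hw
      rw [MonoidHom.mem_ker, ← h3, (D j).κπ, ← (E j).κπ, h4, hx2, map_one]
    obtain ⟨n, hn⟩ := (D j).two ⟨x.1.1, hx1⟩
    refine ⟨n, ?_⟩
    apply Subtype.ext
    apply Subtype.ext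
    apply Prod.ext
    · exact congrArg Subtype.val hn
    · show x.1.2 ^ 2 ^ n = 1
      rw [hx2, one_pow]
  refine harm_infL M ν i (Pool.Agent.H4.Singer.l2ker_trivial π hsep' (HAL M ν i) ?_)
  intro η hη
  have hbd : ∀ j, (bP ℂ (gr M) univ (fun v => π j (M.simple v)) ν i : ℝ) ≤
      1 / (j + 1 : ℝ) * Fintype.card (P j) := by
    intro j
    have hsq : ∀ v, (E j).g v * (E j).g v = 1 := (E j).sq
    have hsq' : ∀ v, π j (M.simple v) * π j (M.simple v) = 1 := by
      intro v
      have h1 := M.toCoxeterSystem.simple_mul_simple_self v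
      rw [M.toCoxeterSystem_simple] at h1
      rw [← map_mul, h1, map_one]
    have h3 := bP_le (K := K) (gr M) k hdim (fun v => π j (M.simple v)) hsq'
      (fun x => e ((D j).κ x.1.1))
      (fun p q => by
        show e ((D j).κ (p.1.1 * q.1.1)) = _
        rw [map_mul, he])
      (fun v => by
        show e ((D j).κ ((D j).π (M.simple v))) = 1
        rw [(D j).κπ, heg]) ν hν i hi
    have h4 := mono (K := K) (gr M) (k + 1) (fun v => π j (M.simple v)) (E j).g (q j)
      (fun v => hq j (M.simple v)) hsq (hqs j) (hq2 j)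
    have h6 := hE j
    have hc2 : (0 : ℝ) < Fintype.card (P₂ j) := by exact_mod_cast Fintype.card_pos
    have h7 : (Fintype.card (P₂ j) * bP ℂ (gr M) univ (fun v => π j (M.simple v)) ν i : ℝ) ≤
        Fintype.card (P j) * dG K (gr M) (k + 1) (E j).g := by
      exact_mod_cast (Nat.mul_le_mul_left _ h3).trans h4
    have h8 : (Fintype.card (P j) * dG K (gr M) (k + 1) (E j).g : ℝ) ≤
        Fintype.card (P j) * (1 / (j + 1 : ℝ) * Fintype.card (P₂ j)) :=
      mul_le_mul_of_nonneg_left h6 (Nat.cast_nonneg _)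
    have h9 : (Fintype.card (P₂ j) : ℝ) * bP ℂ (gr M) univ (fun v => π j (M.simple v)) ν i ≤
        Fintype.card (P₂ j) * (1 / (j + 1 : ℝ) * Fintype.card (P j)) := by
      refine (h7.trans h8).trans (le_of_eq ?_)
      ring
    exact le_of_mul_le_mul_left h9 hc2
  have hlim : Tendsto (fun j : ℕ => 1 / ((j : ℝ) + 1)) atTop (𝓝 0) :=
    tendsto_one_div_add_atTop_nhds_zero_nat
  filter_upwards [hlim.eventually (eventually_le_nhds hη)] with j hj
  refine (harm_finL M (gr M) hS ν hν i (P j) (π j)).trans ((hbd j).trans ?_)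
  exact mul_le_mul_of_nonneg_right hj (Nat.cast_nonneg _)

end Pool.Agent.H77.SX
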