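import Pool.Agent.H77.SX.ExtG

/-!
# Singer without colours for Coxeter groups of FC type: the action on the extension module
-/

set_option autoImplicit false
set_option linter.unusedSectionVars false

open Finset

namespace Pool.Agent.H77.SX

open Pool.Agent.H77.SW

variable {V : Type} [DecidableEq V] [Fintype V] {K : Type} [Field K] [CharP K 2]

private theorem ExtR_mul_fst {V P I : Type} [Group P] (q q' : Ext_G V P I) (v : V) (x : P) :
    (q * q').1 v x = q.1 v x + q'.1 v (x * q.2) := rfl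

/-- the operator `∏ c ∈ s, (1 + a c E c)` at one point -/
private def ExtR_T (s : Finset V) (a : V → K) (f : Finset V → K) (A : Finset V) : K :=
  ∑ B ∈ (A ∩ s).powerset, (∏ c ∈ B, a c) * f (A \ B)

private theorem ExtR_T_off (s : Finset V) (a b : V → K) (f : Finset V → K) (A : Finset V)
    (h : ∀ c ∈ A, a c = b c) : ExtR_T s a f A = ExtR_T s b f A := by
  unfold ExtR_T
  refine sum_congr rfl fun B hB => ?_
  have hBA : B ⊆ A := (mem_powerset.1 hB).trans inter_subset_left
  rw [prod_congr rfl fun c hc => h c (hBA hc)]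

private theorem ExtR_T_on (s : Finset V) (a b : V → K) (t : K) (f : Finset V → K) (A : Finset V)
    (v : V) (hvA : v ∈ A) (hvs : v ∈ s) (h : ∀ c, c ≠ v → b c = a c) (hv : b v = a v + t) :
    ExtR_T s b f A = ExtR_T s a f A + t * ExtR_T s a f (A.erase v) := by
  unfold ExtR_T
  have hins : A ∩ s = insert v (A.erase v ∩ s) := by
    ext c
    simp only [mem_inter, mem_insert, mem_erase]
    constructor
    · rintro ⟨h1, h2⟩
      by_cases hc : c = v
      · exact Or.inl hc
      · exact Or.inr ⟨⟨hc, h1⟩, h2⟩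
    · rintro (h1 | ⟨⟨_, h1⟩, h2⟩)
      · rw [h1]; exact ⟨hvA, hvs⟩
      · exact ⟨h1, h2⟩
  have hnot : v ∉ A.erase v ∩ s := by
    intro hc
    exact (mem_erase.1 (mem_inter.1 hc).1).1 rfl
  have key : ∀ B ∈ (A.erase v ∩ s).powerset, v ∉ B := fun B hB hc =>
    hnot (mem_powerset.1 hB hc)
  have hprod : ∀ B ∈ (A.erase v ∩ s).powerset, ∏ c ∈ B, b c = ∏ c ∈ B, a c := by
    intro B hB
    refine prod_congr rfl fun c hc => h c fun hcv => ?_
    rw [hcv] at hc
    exact key B hB hc
  rw [hins, sum_powerset_insert hnot, sum_powerset_insert hnot, mul_sum, ← sum_add_distrib,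
    ← sum_add_distrib, ← sum_add_distrib]
  refine sum_congr rfl fun B hB => ?_
  have h1 : A \ insert v B = (A.erase v) \ B := by
    ext c
    simp only [mem_sdiff, mem_insert, mem_erase]
    tauto
  rw [prod_insert (key B hB), prod_insert (key B hB), h1, hv, hprod B hB]
  ring

private theorem ExtR_T_inj (s : Finset V) (a : V → K) (f : Finset V → K)
    (h : ∀ A, ExtR_T s a f A = 0) : ∀ A, f A = 0 := by
  intro A
  induction A using Finset.strongInduction with
  | H A ih =>
    have h1 := h A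
    unfold ExtR_T at h1
    rw [← Finset.add_sum_erase _ _ (empty_mem_powerset (A ∩ s))] at h1
    have h2 : ∑ B ∈ ((A ∩ s).powerset).erase ∅, (∏ c ∈ B, a c) * f (A \ B) = 0 := by
      refine sum_eq_zero fun B hB => ?_
      obtain ⟨hB0, hB1⟩ := mem_erase.1 hB
      have hBA : B ⊆ A := (mem_powerset.1 hB1).trans inter_subset_left
      obtain ⟨c, hc⟩ := nonempty_iff_ne_empty.2 hB0
      have hss : A \ B ⊂ A := by
        refine ⟨sdiff_subset, fun hsub => ?_⟩
        exact (mem_sdiff.1 (hsub (hBA hc))).2 hc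
      rw [ih _ hss, mul_zero]
    rw [h2, add_zero, prod_empty, one_mul, sdiff_empty] at h1
    exact h1

/-- the value of a vector in the field -/
private def ExtR_ev {I : Type} [Fintype I] (τ : I → K) (c : I → ZMod 2) : K :=
  ∑ i, ZMod.castHom (dvd_refl 2) K (c i) * τ i

private theorem ExtR_ev_single {I : Type} [Fintype I] [DecidableEq I] (τ : I → K) (c : I → ZMod 2)
    (j : I) : ExtR_ev τ (c + Pi.single j 1) = ExtR_ev τ c + τ j := by
  unfold ExtR_ev
  have h1 : ∀ i, ZMod.castHom (dvd_refl 2) K ((c + (Pi.single j 1 : I → ZMod 2)) i) * τ i =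
      ZMod.castHom (dvd_refl 2) K (c i) * τ i + if i = j then τ i else 0 := by
    intro i
    rw [Pi.add_apply, map_add, add_mul]
    congr 1
    by_cases hij : i = j
    · rw [if_pos hij, hij, Pi.single_eq_same, map_one, one_mul]
    · rw [if_neg hij, Pi.single_eq_of_ne hij, map_zero, zero_mul]
  rw [sum_congr rfl fun i _ => h1 i, sum_add_distrib, sum_ite_eq' univ j τ, if_pos (mem_univ j)]

/-- the action on the extension module -/
private def ExtR_R {P : Type} [Group P] (s : Finset V) {I : Type} [Fintype I] (τ : I → K)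
    (q : Ext_G V P I) : (Finset V × P → K) →ₗ[K] (Finset V × P → K) where
  toFun f x := ExtR_T s (fun c => ExtR_ev τ (q.1 c (x.2 * q.2⁻¹))) (fun A => f (A, x.2 * q.2⁻¹)) x.1
  map_add' f f' := by
    funext x
    simp only [ExtR_T, Pi.add_apply, mul_add, sum_add_distrib]
  map_smul' c f := by
    funext x
    simp only [ExtR_T, Pi.smul_apply, smul_eq_mul, RingHom.id_apply, mul_sum]
    exact sum_congr rfl fun B _ => by ring

private theorem ExtR_R_apply {P : Type} [Group P] (s : Finset V) {I : Type} [Fintype I] (τ : I → K)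
    (q : Ext_G V P I) (f : Finset V × P → K) (A : Finset V) (x : P) :
    ExtR_R s τ q f (A, x) =
      ExtR_T s (fun c => ExtR_ev τ (q.1 c (x * q.2⁻¹))) (fun A => f (A, x * q.2⁻¹)) A := rfl

private theorem ExtR_R_inj {P : Type} [Group P] (s : Finset V) {I : Type} [Fintype I] (τ : I → K)
    (q : Ext_G V P I) : Function.Injective (ExtR_R s τ q) := by
  rw [injective_iff_map_eq_zero]
  intro f hf
  funext x
  obtain ⟨A, y⟩ := x
  have h := ExtR_T_inj s (fun c => ExtR_ev τ (q.1 c y)) (fun A => f (A, y)) fun A' => by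
    have h1 := congrFun hf (A', y * q.2)
    rw [ExtR_R_apply, mul_inv_cancel_right] at h1
    exact h1
  exact h A

/-- **The action on the extension module.** Adapt the second half of `Pool.Agent.H77.SW.Ext`
(`Ext_T`, `Ext_ev`, `Ext_R`, `lower_rE`): `R (a, p) f (A, x) = (T (ev a) f) (A, x * p⁻¹)`; the only
difference is that the coordinate `v` of `eg g s ι v` is a sum of two unit vectors, so
`ev` gives `τ (ι v x) + τ (ι v (x * g v))`. -/
theorem exists_R {P I : Type} [Group P] [Fintype I] [DecidableEq I] (g : V → P)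
    (hsq : ∀ v, g v * g v = 1) (s : Finset V) (ι : V → P → I) (τ : I → K) :
    ∃ R : Ext_G V P I → (Finset V × P → K) →ₗ[K] (Finset V × P → K),
      (∀ x, Function.Injective (R x)) ∧
      ∀ x v f, rX g s (fun v p => τ (ι v p) + τ (ι v (p * g v))) v (R (x * eg g s ι v) f) =
        R x f := by
  refine ⟨ExtR_R s τ, ExtR_R_inj s τ, ?_⟩
  intro q v f
  funext x
  obtain ⟨A, x⟩ := x
  have hg2 : (q * eg g s ι v).2 = q.2 * g v := rfl
  have hx : x * g v * (q.2 * g v)⁻¹ = x * q.2⁻¹ := by
    rw [mul_inv_rev, mul_assoc x, mul_inv_cancel_left]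
  have hrhs := ExtR_R_apply s τ q f A x
  have hlhs : ∀ A', ExtR_R s τ (q * eg g s ι v) f (A', x * g v) =
      ExtR_T s (fun c => ExtR_ev τ ((q * eg g s ι v).1 c (x * q.2⁻¹)))
        (fun A => f (A, x * q.2⁻¹)) A' := by
    intro A'
    rw [ExtR_R_apply, hg2, hx]
  have hne : ∀ c, c ≠ v → ExtR_ev τ ((q * eg g s ι v).1 c (x * q.2⁻¹)) =
      ExtR_ev τ (q.1 c (x * q.2⁻¹)) := by
    intro c hc
    rw [ExtR_mul_fst]
    change ExtR_ev τ (q.1 c (x * q.2⁻¹) + if c = v ∧ v ∈ s then _ else _) = _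
    rw [if_neg fun h => hc h.1, add_zero]
  change ExtR_R s τ (q * eg g s ι v) f (A, x * g v) +
    (if v ∈ s ∧ v ∈ A then (τ (ι v x) + τ (ι v (x * g v))) *
      ExtR_R s τ (q * eg g s ι v) f (A.erase v, x * g v) else 0) = ExtR_R s τ q f (A, x)
  rw [hlhs A, hlhs (A.erase v), hrhs]
  by_cases hvs : v ∈ s
  · have hv : ExtR_ev τ ((q * eg g s ι v).1 v (x * q.2⁻¹)) =
        ExtR_ev τ (q.1 v (x * q.2⁻¹)) + (τ (ι v x) + τ (ι v (x * g v))) := by
      rw [ExtR_mul_fst]
      change ExtR_ev τ (q.1 v (x * q.2⁻¹) +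
        if v = v ∧ v ∈ s then Pi.single (ι v (x * q.2⁻¹ * q.2)) 1 +
          Pi.single (ι v (x * q.2⁻¹ * q.2 * g v)) 1 else 0) = _
      rw [if_pos ⟨rfl, hvs⟩, inv_mul_cancel_right, ← add_assoc, ExtR_ev_single, ExtR_ev_single,
        add_assoc]
    by_cases hvA : v ∈ A
    · rw [if_pos ⟨hvs, hvA⟩,
        ExtR_T_on s (fun c => ExtR_ev τ (q.1 c (x * q.2⁻¹))) _ (τ (ι v x) + τ (ι v (x * g v))) _ A v
          hvA hvs hne hv,
        ExtR_T_off s (fun c => ExtR_ev τ ((q * eg g s ι v).1 c (x * q.2⁻¹)))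
          (fun c => ExtR_ev τ (q.1 c (x * q.2⁻¹))) _ (A.erase v)
          (fun c hc => hne c (ne_of_mem_erase hc)), add_assoc, CharTwo.add_self_eq_zero, add_zero]
    · rw [if_neg fun h => hvA h.2, add_zero]
      exact ExtR_T_off s _ _ _ A fun c hc => hne c fun h => hvA (h ▸ hc)
  · rw [if_neg fun h => hvs h.1, add_zero]
    have hall : ∀ c, ExtR_ev τ ((q * eg g s ι v).1 c (x * q.2⁻¹)) =
        ExtR_ev τ (q.1 c (x * q.2⁻¹)) := by
      intro c
      rw [ExtR_mul_fst]
      change ExtR_ev τ (q.1 c (x * q.2⁻¹) + if c = v ∧ v ∈ s then _ else _) = _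
      rw [if_neg fun h => hvs h.2, add_zero]
    exact ExtR_T_off s _ _ _ A fun c _ => hall c

end Pool.Agent.H77.SX
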