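import Pool.Agent.H77.SX.Defs

/-!
# Singer without colours for Coxeter groups of FC type: generic parameters
-/

set_option autoImplicit false
set_option linter.unusedSectionVars false

open Finset

namespace Pool.Agent.H77.SX

open Pool.Agent.H77.SW

variable {V : Type} [DecidableEq V] [Fintype V] {K : Type} [Field K]

/-- **Generic parameters.** `I = Σ v : V, P ⧸ Subgroup.closure (g '' {u | G.Adj v u})`,
`ι v p = ⟨v, p⟩`, `τ i = X.x (Fintype.equivFin I i)`. If `p`, `p'` have the same cosets for all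
`v ∈ s` then `p⁻¹ * p' = 1` by `hgood`. So the products of the `τ (ι v p)` over `s` are pairwise
different squarefree monomials. (Compare `Pool.Agent.H77.SW.Gen`.) -/
theorem exists_gen (X : GenSeq K) (G : SimpleGraph V) {P : Type} [Group P] [Fintype P]
    (g : V → P) (s : Finset V)
    (hgood : ∀ x : P, (∀ v ∈ s, x ∈ Subgroup.closure (g '' {u | G.Adj v u})) → x = 1) :
    ∃ (I : Type) (_ : Fintype I) (_ : DecidableEq I) (ι : V → P → I) (τ : I → K),
      (∀ v u, G.Adj v u → ∀ p, ι v (p * g u) = ι v p) ∧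
      ∀ c : P → K, ∑ p, (∏ v ∈ s, τ (ι v p)) * c p ^ 2 = 0 → c = 0 := by
  classical
  obtain ⟨H, hH⟩ : ∃ H : V → Subgroup P, ∀ v, H v =
      Subgroup.closure (g '' {u | G.Adj v u}) := ⟨_, fun _ => rfl⟩
  have hI : Fintype (Σ v : V, P ⧸ H v) := by
    have : ∀ v, Fintype (P ⧸ H v) := fun v => Fintype.ofFinite _
    infer_instance
  obtain ⟨e⟩ : Nonempty ((Σ v : V, P ⧸ H v) ≃ Fin (Fintype.card (Σ v : V, P ⧸ H v))) :=
    ⟨Fintype.equivFin _⟩
  obtain ⟨ι, hι⟩ : ∃ ι : V → P → (Σ v : V, P ⧸ H v), ∀ v p, ι v p = ⟨v, (p : P ⧸ H v)⟩ :=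
    ⟨fun v p => ⟨v, (p : P ⧸ H v)⟩, fun _ _ => rfl⟩
  refine ⟨(Σ v : V, P ⧸ H v), hI, Classical.decEq _, ι, fun i => X.x (e i).val, ?_, ?_⟩
  · intro v u hu p
    rw [hι, hι]
    congr 1
    rw [QuotientGroup.eq, mul_inv_rev, mul_assoc, inv_mul_cancel, mul_one, hH]
    exact Subgroup.inv_mem _ (Subgroup.subset_closure ⟨u, hu, rfl⟩)
  · intro c hsum
    -- the monomial of `p`
    obtain ⟨M, hM⟩ : ∃ M : P → Finset ℕ, ∀ p, M p = s.image fun v => (e (ι v p)).val :=
      ⟨fun p => s.image fun v => (e (ι v p)).val, fun _ => rfl⟩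
    have hinj1 : ∀ v w p q, (e (ι v p)).val = (e (ι w q)).val → v = w ∧
        p⁻¹ * q ∈ H v := by
      intro v w p q h
      have h1 : ι v p = ι w q := e.injective (Fin.val_injective h)
      rw [hι, hι] at h1
      have h2 : v = w := congrArg Sigma.fst h1
      subst h2
      refine ⟨rfl, ?_⟩
      have h3 : (p : P ⧸ H v) = (q : P ⧸ H v) := eq_of_heq (Sigma.mk.inj h1).2
      exact QuotientGroup.eq.1 h3
    have hprod : ∀ p, ∏ v ∈ s, X.x (e (ι v p)).val = ∏ i ∈ M p, X.x i := by
      intro p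
      rw [hM, prod_image]
      intro v _ w _ h
      exact (hinj1 v w p p h).1
    have hinj : Function.Injective M := by
      intro p q hpq
      have h1 : p⁻¹ * q = 1 := by
        refine hgood _ fun v hv => ?_
        have h2 : (e (ι v p)).val ∈ M q := by
          rw [← hpq, hM]
          exact mem_image_of_mem _ hv
        rw [hM, mem_image] at h2
        obtain ⟨w, _, hw⟩ := h2
        obtain ⟨h3, h4⟩ := hinj1 v w p q hw.symm
        rw [← hH]
        exact h4
      exact inv_mul_eq_one.1 h1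
    obtain ⟨c', hc'⟩ : ∃ c' : Finset ℕ → K, ∀ p, c' (M p) = c p := by
      refine ⟨fun S => if h : ∃ p, M p = S then c h.choose else 0, fun p => ?_⟩
      have hex : ∃ q, M q = M p := ⟨p, rfl⟩
      show (if h : ∃ q, M q = M p then c h.choose else 0) = c p
      rw [dif_pos hex]
      exact congrArg c (hinj hex.choose_spec)
    have hsum' : ∑ S ∈ (univ : Finset P).image M, (∏ i ∈ S, X.x i) * c' S ^ 2 = 0 := by
      rw [sum_image (fun p _ q _ h => hinj h), ← hsum]
      exact sum_congr rfl fun p _ => by rw [hc' p, hprod]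
    have hz := X.indep ((univ : Finset P).image M) c' hsum'
    funext p
    rw [← hc' p]
    exact hz _ (mem_image_of_mem _ (mem_univ p))

end Pool.Agent.H77.SX
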