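import Pool.Agent.H77.SX.Lower
import Pool.Agent.H77.SX.ExtR
import Pool.Agent.H77.SX.Filt
import Pool.Agent.H77.SX.Key
import Pool.Agent.H77.SX.Gen

/-!
# Singer without colours for Coxeter groups of FC type: the dimension count
-/

set_option autoImplicit false
set_option linter.unusedSectionVars false

open Finset

namespace Pool.Agent.H77.SX

open Pool.Agent.H77.SW Pool.Agent.H85.VK

/-- Linear maps with trivial common kernel. -/
private theorem count_inj {K Z E : Type} [Field K] [AddCommGroup Z] [Module K Z] [Module.Finite K Z]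
    [AddCommGroup E] [Module K E] [Module.Finite K E] {ι : Type} [DecidableEq ι] (F : Finset ι)
    (f : ι → Z →ₗ[K] E) : Module.finrank K Z ≤
      Module.finrank K (⨅ i ∈ F, LinearMap.ker (f i) : Submodule K Z) +
        ∑ i ∈ F, (Module.finrank K Z - Module.finrank K (LinearMap.ker (f i))) := by
  induction F using Finset.induction_on with
  | empty =>
    have h0 : (⨅ i ∈ (∅ : Finset ι), LinearMap.ker (f i)) = (⊤ : Submodule K Z) := by simp
    rw [h0, finrank_top]
    simp
  | insert i F hi ih =>
    rw [sum_insert hi, Finset.iInf_insert]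
    have h1 := Submodule.finrank_sup_add_finrank_inf_eq (LinearMap.ker (f i))
      (⨅ j ∈ F, LinearMap.ker (f j))
    have h2 : Module.finrank K
        ((LinearMap.ker (f i)) ⊔ (⨅ j ∈ F, LinearMap.ker (f j)) : Submodule K Z) ≤
        Module.finrank K Z := Submodule.finrank_le _
    omega

variable {V : Type} [DecidableEq V] [Fintype V] {K : Type} [Field K] [CharP K 2]

/-- the sum over the facets -/
private theorem count_facets (G : SimpleGraph V) (n : ℕ) {P : Type} [Group P] [Fintype P]
    (g : V → P) (c : ℕ) (h : ∀ s : Finset V, G.IsClique (s : Set V) → s.card = n →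
      dG K G n g ≤ Module.finrank K (ZG K G n g s) + c) : dG K G n g ≤ 2 ^ Fintype.card V * c := by
  classical
  let Z := Zs K G n (rG K g)
  let f : Finset V → Z →ₗ[K] (P → K) := fun σ =>
    (LinearMap.proj (R := K) (φ := fun _ : Finset V => P → K) σ).comp Z.subtype
  have h1 := count_inj (K := K) (univ : Finset (Finset V)) f
  have h2 : (⨅ i ∈ (univ : Finset (Finset V)), LinearMap.ker (f i) : Submodule K Z) = ⊥ := by
    rw [eq_bot_iff]
    intro z hz
    rw [Submodule.mem_bot]
    apply Subtype.ext
    funext σ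
    have h3 := (Submodule.mem_iInf _).1 ((Submodule.mem_iInf _).1 hz σ) (mem_univ σ)
    exact h3
  rw [h2, finrank_bot, zero_add] at h1
  refine h1.trans ?_
  have h4 : ∀ σ ∈ (univ : Finset (Finset V)),
      Module.finrank K Z - Module.finrank K (LinearMap.ker (f σ)) ≤ c := by
    intro σ _
    have h5 : Module.finrank K (LinearMap.ker (f σ)) = Module.finrank K (ZG K G n g σ) := by
      have e : (LinearMap.ker (f σ)).map Z.subtype = ZG K G n g σ := by
        ext z
        constructor
        · rintro ⟨w, hw, rfl⟩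
          exact ⟨w.2, hw⟩
        · rintro ⟨hz1, hz2⟩
          exact ⟨⟨z, hz1⟩, hz2, rfl⟩
      rw [← e]
      exact (Submodule.equivMapOfInjective Z.subtype Z.injective_subtype _).finrank_eq
    by_cases hσ : G.IsClique (σ : Set V) ∧ σ.card = n
    · have h6 := h σ hσ.1 hσ.2
      have h7 : Module.finrank K Z = dG K G n g := rfl
      omega
    · have h8 : ZG K G n g σ = Zs K G n (rG K g) := by
        refine le_antisymm inf_le_left fun z hz => ⟨hz, ?_⟩
        by_contra hne
        exact hσ (hz.1 σ hne)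
      rw [h5, h8]
      have h7 : Module.finrank K Z = Module.finrank K (Zs K G n (rG K g)) := rfl
      omega
  refine (sum_le_card_nsmul _ _ _ h4).trans ?_
  rw [smul_eq_mul, Finset.card_univ, Fintype.card_finset]

theorem FQ.sq {M : CoxeterMatrix V} {Ps : Type} [Group Ps] {πs : M.Group →* Ps} {P : Type}
    [Group P] (D : FQ M πs P) (v : V) : D.g v * D.g v = 1 := by
  have h1 := M.toCoxeterSystem.simple_mul_simple_self v
  rw [M.toCoxeterSystem_simple] at h1
  show D.π (M.simple v) * D.π (M.simple v) = 1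
  rw [← map_mul, h1, map_one]

/-- **The dimension count.** -/
theorem small (X : GenSeq K) (M : CoxeterMatrix V) (k : ℕ)
    (hdim : ∀ σ : Finset V, (Pool.Agent.H4.FC.gr M).IsClique (σ : Set V) → σ.card ≤ k + 1)
    (hvk : VanKampenZero (Pool.Agent.H4.FC.gr M) k) {Ps : Type} [Group Ps] (πs : M.Group →* Ps)
    (e : Ps → ZMod 2) (he : ∀ p q, e (p * q) = e p + e q) (heg : ∀ v, e (πs (M.simple v)) = 1)
    (hne : ∃ (P : Type) (_ : Group P) (_ : Fintype P) (D : FQ M πs P),
      LinkGood (Pool.Agent.H4.FC.gr M) D.g) (ε : ℝ) (hε : 0 < ε) :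
    ∃ (P : Type) (_ : Group P) (_ : Fintype P) (D : FQ M πs P),
      (dG K (Pool.Agent.H4.FC.gr M) (k + 1) D.g : ℝ) ≤ ε * Fintype.card P := by
  classical
  by_contra hcon
  push Not at hcon
  set G := Pool.Agent.H4.FC.gr M with hG
  let S : Set ℝ := {x | ∃ (P : Type) (_ : Group P) (_ : Fintype P) (D : FQ M πs P),
    LinkGood G D.g ∧ x = dG K G (k + 1) D.g / Fintype.card P}
  have hne' : S.Nonempty := by
    obtain ⟨P, grp, fin, D, hD⟩ := hne
    exact ⟨_, P, grp, fin, D, hD, rfl⟩
  have hcard : ∀ (P : Type) [Group P] [Fintype P], (0 : ℝ) < Fintype.card P := by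
    intro P _ _
    exact_mod_cast Fintype.card_pos
  have hlow : ∀ x ∈ S, ε ≤ x := by
    rintro x ⟨P, grp, fin, D, _, rfl⟩
    have h1 := hcon P grp fin D
    rw [le_div_iff₀ (hcard P)]
    exact h1.le
  have hbdd : BddBelow S := ⟨ε, hlow⟩
  set z := sInf S with hz
  have hzε : ε ≤ z := le_csInf hne' hlow
  have hz0 : 0 < z := hε.trans_le hzε
  set N : ℝ := 2 ^ Fintype.card V with hN
  have hN0 : 0 < N := by positivity
  obtain ⟨x, ⟨P, grp, fin, D, hgood, rfl⟩, hx⟩ :=
    exists_lt_of_csInf_lt hne' (show sInf S < z + z / (N * N) by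
      have : 0 < z / (N * N) := by positivity
      linarith)
  set m : ℝ := (Fintype.card P : ℝ) with hm
  have hm0 : 0 < m := hcard P
  set d : ℝ := (dG K G (k + 1) D.g : ℝ) with hd
  have h1 : d < (z + z / (N * N)) * m := by
    rwa [div_lt_iff₀ hm0] at hx
  have h2 : z * m ≤ d := by
    have h3 : z ≤ d / m := csInf_le hbdd ⟨P, grp, fin, D, hgood, rfl⟩
    rwa [le_div_iff₀ hm0] at h3
  -- the facets
  have hfac : ∀ s : Finset V, G.IsClique (s : Set V) → s.card = k + 1 →
      d ≤ Module.finrank K (ZG K G (k + 1) D.g s) + N * (d - z * m) := by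
    intro s hs hsc
    have hmax : ∀ u, ∃ v ∈ s, ¬ G.Adj v u := by
      intro u
      by_contra hc
      push Not at hc
      have hu : u ∉ s := fun h => (hc u h).ne rfl
      have hcl : G.IsClique ((insert u s : Finset V) : Set V) := by
        intro a ha b hb hab
        rw [mem_coe, mem_insert] at ha hb
        rcases ha with rfl | ha <;> rcases hb with rfl | hb
        · exact absurd rfl hab
        · exact (hc b hb).symm
        · exact hc a ha
        · exact hs ha hb hab
      have := hdim _ hcl
      rw [card_insert_of_notMem hu] at this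
      omega
    obtain ⟨I, _, _, ι, τ, hι, hgen⟩ := exists_gen X G D.g s (hgood s hmax)
    obtain ⟨P', grp', fin', D', j, hgood', hj, hjs, hj2⟩ := exists_group M πs D hgood s ι hι
    obtain ⟨R, hR, hRr⟩ := exists_R (K := K) D.g D.sq s ι τ
    have hjg : ∀ v, (ePr V P I).comp j (D'.g v) = D.g v := by
      intro v
      rw [MonoidHom.comp_apply, hj]
      rfl
    have h3 := lower (K := K) (A := Finset V) G (k + 1) D'.g D.g ((ePr V P I).comp j) hjg hjs hj2
      (rX D.g s fun v p => τ (ι v p) + τ (ι v (p * D.g v)))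
      (fun v f f' p hff a => by
        show f (a, p * D.g v) + _ = f' (a, p * D.g v) + _
        rw [hff a, hff (a.erase v)]) (fun x => R (j x)) (fun x => hR (j x))
      (fun x v f => by
        show rX D.g s (fun v p => τ (ι v p) + τ (ι v (p * D.g v))) v (R (j (x * D'.g v)) f) =
          R (j x) f
        rw [map_mul, hj]
        exact hRr (j x) v f)
    have h4 := upper_rX G (k + 1) D.g s (fun v p => τ (ι v p) + τ (ι v (p * D.g v))) s
      (key G k hvk D.g D.sq (fun p => e (D.κ p))
        (fun p v => by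
          rw [map_mul, he]
          show e (D.κ p) + e (D.κ (D.π (M.simple v))) = _
          rw [D.κπ, heg]) s hs hsc (fun v p => τ (ι v p))
        (fun v u hvu p => by rw [hι v u hvu p]) hgen)
    have h5 : z ≤ dG K G (k + 1) D'.g / Fintype.card P' :=
      csInf_le hbdd ⟨P', grp', fin', D', hgood', rfl⟩
    rw [le_div_iff₀ (hcard P')] at h5
    have h6 : (Fintype.card (Finset V × P) : ℝ) * dG K G (k + 1) D'.g ≤ Fintype.card P' *
        Module.finrank K (Zs K G (k + 1)
          (rX D.g s fun v p => τ (ι v p) + τ (ι v (p * D.g v)))) := by exact_mod_cast h3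
    have h7 : (Fintype.card (Finset V × P) : ℝ) = N * m := by
      rw [Fintype.card_prod, Fintype.card_finset]
      push_cast
      rfl
    rw [h7] at h6
    have h8 : N * m * z ≤ Module.finrank K (Zs K G (k + 1)
          (rX D.g s fun v p => τ (ι v p) + τ (ι v (p * D.g v)))) := by
      have h9 : (Fintype.card P' : ℝ) * (N * m * z) ≤ Fintype.card P' *
          Module.finrank K (Zs K G (k + 1)
            (rX D.g s fun v p => τ (ι v p) + τ (ι v (p * D.g v)))) := by
        refine le_trans ?_ h6
        have h10 := mul_le_mul_of_nonneg_left h5 (mul_nonneg hN0.le hm0.le)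
        linarith
      exact le_of_mul_le_mul_left h9 (hcard P')
    have h9 : (Module.finrank K (Zs K G (k + 1)
        (rX D.g s fun v p => τ (ι v p) + τ (ι v (p * D.g v)))) : ℝ) ≤
        Module.finrank K (ZG K G (k + 1) D.g s) + (N - 1) * d := by
      have h10 : ((2 ^ Fintype.card V - 1 : ℕ) : ℝ) = N - 1 := by
        rw [Nat.cast_sub Nat.one_le_two_pow]
        push_cast
        rfl
      rw [← h10, hd]
      exact_mod_cast h4
    linarith
  have hc0 : 0 ≤ N * (d - z * m) := mul_nonneg hN0.le (by linarith)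
  have h3 := count_facets (K := K) G (k + 1) D.g ⌊N * (d - z * m)⌋₊ (by
    intro s hs hsc
    have h4 := hfac s hs hsc
    have h5 : ((dG K G (k + 1) D.g : ℤ) : ℝ) -
        ((Module.finrank K (ZG K G (k + 1) D.g s) : ℤ) : ℝ) ≤ N * (d - z * m) := by
      push_cast
      linarith
    have h6 : (dG K G (k + 1) D.g : ℤ) - Module.finrank K (ZG K G (k + 1) D.g s) ≤
        ⌊N * (d - z * m)⌋ := by
      rw [Int.le_floor]
      push_cast at h5 ⊢
      exact h5
    have h7 : (⌊N * (d - z * m)⌋₊ : ℤ) = ⌊N * (d - z * m)⌋ := Int.natCast_floor_eq_floor hc0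
    omega)
  have h4 : d ≤ N * ⌊N * (d - z * m)⌋₊ := by
    have h5 : ((dG K G (k + 1) D.g : ℕ) : ℝ) ≤
        ((2 ^ Fintype.card V * ⌊N * (d - z * m)⌋₊ : ℕ) : ℝ) := Nat.cast_le.2 h3
    rw [Nat.cast_mul, Nat.cast_pow, Nat.cast_ofNat] at h5
    exact h5
  have h5 : (⌊N * (d - z * m)⌋₊ : ℝ) ≤ N * (d - z * m) := Nat.floor_le hc0
  have h6 : d ≤ N * (N * (d - z * m)) := h4.trans (mul_le_mul_of_nonneg_left h5 hN0.le)
  have h7 : d - z * m < z / (N * N) * m := by linarith
  have h8 : N * (N * (d - z * m)) < N * (N * (z / (N * N) * m)) :=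
    mul_lt_mul_of_pos_left (mul_lt_mul_of_pos_left h7 hN0) hN0
  have h9 : N * (N * (z / (N * N) * m)) = z * m := by
    field_simp
  linarith

end Pool.Agent.H77.SX
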