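import Pool.Agent.H77.SX.Defs

/-!
# Singer without colours for Coxeter groups of FC type: the group of the extension module
-/

set_option autoImplicit false
set_option linter.unusedSectionVars false

open Finset

namespace Pool.Agent.H77.SX

open Pool.Agent.H77.SW

variable {V : Type} [DecidableEq V] [Fintype V]

/-- the marked elements of the semidirect product `Ext_G V P I = (V → P → I → ZMod 2) ⋊ P`: the
coordinate `v` is the function `x ↦ single (ι v x) + single (ι v (x * g v))` (if `v ∈ s`), the other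
coordinates are `0` -/
def eg {P I : Type} [Group P] [DecidableEq I] (g : V → P) (s : Finset V) (ι : V → P → I) (v : V) :
    Ext_G V P I :=
  (fun w x => if w = v ∧ v ∈ s then Pi.single (ι v x) 1 + Pi.single (ι v (x * g v)) 1 else 0, g v)

/-- the projection `Ext_G V P I → P` -/
def ePr (V P I : Type) [Group P] : Ext_G V P I →* P where
  toFun q := q.2
  map_one' := rfl
  map_mul' _ _ := rfl

private theorem ExtG_ext {V P I : Type} {q q' : Ext_G V P I} (h1 : ∀ v x, q.1 v x = q'.1 v x)
    (h2 : q.2 = q'.2) : q = q' :=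
  Prod.ext (funext fun v => funext fun x => h1 v x) h2

private theorem ExtG_mul_fst {V P I : Type} [Group P] (q q' : Ext_G V P I) (v : V) (x : P) :
    (q * q').1 v x = q.1 v x + q'.1 v (x * q.2) := rfl

private theorem ExtG_mul_snd {V P I : Type} [Group P] (q q' : Ext_G V P I) :
    (q * q').2 = q.2 * q'.2 := rfl

private theorem ExtG_inv_fst {V P I : Type} [Group P] (q : Ext_G V P I) (v : V) (x : P) :
    (q⁻¹).1 v x = - q.1 v (x * q.2⁻¹) := rfl

private theorem ExtG_inv_snd {V P I : Type} [Group P] (q : Ext_G V P I) :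
    (q⁻¹).2 = q.2⁻¹ := rfl

private theorem ExtG_one_fst {V P I : Type} [Group P] (v : V) (x : P) :
    (1 : Ext_G V P I).1 v x = 0 := rfl

private theorem ExtG_one_snd {V P I : Type} [Group P] : (1 : Ext_G V P I).2 = 1 := rfl

private theorem ExtG_two (I : Type) (c : I → ZMod 2) : c + c = 0 := by
  funext i
  exact CharTwo.add_self_eq_zero (c i)

private theorem ExtG_neg (I : Type) (c : I → ZMod 2) : - c = c := by
  funext i
  exact CharTwo.neg_eq (c i)

/-- the embedding of `P` -/
private def ExtG_in (V I : Type) {P : Type} [Group P] : P →* Ext_G V P I where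
  toFun p := (fun _ _ => 0, p)
  map_one' := rfl
  map_mul' p q := by
    refine ExtG_ext (fun v x => ?_) rfl
    rw [ExtG_mul_fst]
    exact (add_zero _).symm

private theorem ExtG_sq {V P I : Type} [Group P] (q : Ext_G V P I) (h : q.2 = 1) : q * q = 1 := by
  refine ExtG_ext (fun v x => ?_) ?_
  · rw [ExtG_mul_fst, h, mul_one, ExtG_one_fst]
    exact ExtG_two I _
  · rw [ExtG_mul_snd, h, mul_one, ExtG_one_snd]

/-- the conjugating element -/
private def ExtG_H {P I : Type} [Group P] [DecidableEq I] (s : Finset V) (ι : V → P → I)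
    (T : V → Prop) [DecidablePred T] : Ext_G V P I :=
  (fun c x => if c ∈ s ∧ T c then Pi.single (ι c x) 1 else 0, 1)

private theorem ExtG_conj {P I : Type} [Group P] [DecidableEq I] (g : V → P) (s : Finset V)
    (ι : V → P → I) (T : V → Prop) [DecidablePred T] (u : V) (hu : T u)
    (hT : ∀ c, T c → c ≠ u → ∀ p, ι c (p * g u) = ι c p) :
    eg g s ι u = ExtG_H s ι T * ExtG_in V I (g u) * (ExtG_H s ι T)⁻¹ := by
  refine ExtG_ext (fun c x => ?_) ?_
  · rw [ExtG_mul_fst, ExtG_mul_fst, ExtG_inv_fst, ExtG_mul_snd]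
    change (if c = u ∧ u ∈ s then Pi.single (ι u x) 1 + Pi.single (ι u (x * g u)) 1 else 0) =
      (if c ∈ s ∧ T c then Pi.single (ι c x) 1 else 0) + 0 +
        - (if c ∈ s ∧ T c then Pi.single (ι c (x * (1 * g u) * 1⁻¹)) 1 else 0 : I → ZMod 2)
    rw [one_mul, inv_one, mul_one, add_zero, ExtG_neg]
    by_cases hc : c = u
    · subst hc
      by_cases hs : c ∈ s
      · rw [if_pos ⟨rfl, hs⟩, if_pos ⟨hs, hu⟩, if_pos ⟨hs, hu⟩]
      · rw [if_neg fun h => hs h.2, if_neg fun h => hs h.1, if_neg fun h => hs h.1, add_zero]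
    · rw [if_neg fun h => hc h.1]
      by_cases hsT : c ∈ s ∧ T c
      · rw [if_pos hsT, if_pos hsT, hT c hsT.2 hc, ExtG_two]
      · rw [if_neg hsT, if_neg hsT, add_zero]
  · rw [ExtG_mul_snd, ExtG_mul_snd, ExtG_inv_snd]
    change g u = 1 * g u * 1⁻¹
    rw [one_mul, inv_one, mul_one]

private theorem ExtG_rel (M : CoxeterMatrix V) {P : Type} [Group P] (π : M.Group →* P)
    (s : Finset V) {I : Type} [DecidableEq I] (ι : V → P → I)
    (hι : ∀ v u, (Pool.Agent.H4.FC.gr M).Adj v u → ∀ p, ι v (p * π (M.simple u)) = ι v p) :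
    M.IsLiftable (eg (fun v => π (M.simple v)) s ι) := by
  have hS : ∀ u v : V, (M.simple u * M.simple v) ^ M u v = 1 := fun u v =>
    M.toCoxeterSystem.simple_mul_simple_pow u v
  have hS1 : ∀ u : V, M.simple u * M.simple u = 1 := fun u =>
    M.toCoxeterSystem.simple_mul_simple_self u
  intro u v
  by_cases huv : u = v
  · subst huv
    rw [M.diagonal, pow_one]
    have hg : π (M.simple u) * π (M.simple u) = 1 := by rw [← map_mul, hS1, map_one]
    refine ExtG_ext (fun c x => ?_) ?_
    · rw [ExtG_mul_fst, ExtG_one_fst]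
      change (if c = u ∧ u ∈ s then Pi.single (ι u x) 1 +
          Pi.single (ι u (x * π (M.simple u))) 1 else 0) +
        (if c = u ∧ u ∈ s then Pi.single (ι u (x * π (M.simple u))) 1 +
          Pi.single (ι u (x * π (M.simple u) * π (M.simple u))) 1 else 0) = (0 : I → ZMod 2)
      rw [mul_assoc, hg, mul_one]
      by_cases hc : c = u ∧ u ∈ s
      · rw [if_pos hc, if_pos hc, add_comm (Pi.single (ι u (x * π (M.simple u))) 1)]
        exact ExtG_two I _
      · rw [if_neg hc, if_neg hc, add_zero]
    · exact hg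
  · by_cases hM : M u v = 0
    · rw [hM, pow_zero]
    · have hadj : (Pool.Agent.H4.FC.gr M).Adj u v := ⟨huv, hM⟩
      have h1 := ExtG_conj (fun v => π (M.simple v)) s ι (fun c => c = u ∨ c = v) u (Or.inl rfl)
        (by
          rintro c (rfl | rfl) hc p
          · exact absurd rfl hc
          · exact hι _ _ hadj.symm p)
      have h2 := ExtG_conj (fun v => π (M.simple v)) s ι (fun c => c = u ∨ c = v) v (Or.inr rfl)
        (by
          rintro c (rfl | rfl) hc p
          · exact hι _ _ hadj p
          · exact absurd rfl hc)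
      rw [h1, h2]
      have h3 : (π (M.simple u) * π (M.simple v)) ^ M u v = 1 := by
        rw [← map_mul, ← map_pow, hS, map_one]
      have h4 : (ExtG_in V I (π (M.simple u)) * ExtG_in V I (π (M.simple v))) ^ M u v = 1 := by
        rw [← map_mul, ← map_pow, h3, map_one]
      generalize ExtG_H s ι (fun c => c = u ∨ c = v) = H
      have h5 : H * ExtG_in V I (π (M.simple u)) * H⁻¹ * (H * ExtG_in V I (π (M.simple v)) * H⁻¹) =
          H * (ExtG_in V I (π (M.simple u)) * ExtG_in V I (π (M.simple v))) * H⁻¹ := by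
        group
      rw [h5, conj_pow, h4, mul_one, mul_inv_cancel]

private theorem ExtG_pgroup {A : Type} [Group A] {P : Type} [Group P] {I : Type} {Ps : Type}
    [Group Ps] (j : A →* Ext_G V P I) (hj : Function.Injective j) (κ : P →* Ps)
    (hκ : IsPGroup 2 κ.ker) : IsPGroup 2 (κ.comp ((ePr V P I).comp j)).ker := by
  intro x
  have hx : κ (j x.1).2 = 1 := x.2
  obtain ⟨k, hk⟩ := hκ ⟨(j x.1).2, hx⟩
  refine ⟨k + 1, ?_⟩
  have h1 : (j (x.1 ^ 2 ^ k)).2 = 1 := by
    have h2 : (j (x.1 ^ 2 ^ k)).2 = (j x.1).2 ^ 2 ^ k := by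
      have h3 : ePr V P I (j (x.1 ^ 2 ^ k)) = (ePr V P I (j x.1)) ^ 2 ^ k := by
        rw [map_pow, map_pow]
      exact h3
    rw [h2]
    exact congrArg Subtype.val hk
  have h2 : j (x.1 ^ 2 ^ k * x.1 ^ 2 ^ k) = 1 := by
    rw [map_mul]
    exact ExtG_sq _ h1
  have h3 : x.1 ^ 2 ^ k * x.1 ^ 2 ^ k = 1 := hj (by rw [h2, map_one])
  apply Subtype.ext
  change x.1 ^ 2 ^ (k + 1) = 1
  rw [pow_succ, pow_mul, pow_two]
  exact h3

/-- the elements with vanishing coordinate `c` -/
private def ExtG_sub (V P I : Type) [Group P] (c : V) : Subgroup (Ext_G V P I) where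
  carrier := {q | q.1 c = 0}
  one_mem' := rfl
  mul_mem' := by
    intro a b ha hb
    have ha' : a.1 c = 0 := ha
    have hb' : b.1 c = 0 := hb
    change (a * b).1 c = 0
    funext x
    rw [ExtG_mul_fst, ha', hb']
    exact add_zero _
  inv_mem' := by
    intro a ha
    have ha' : a.1 c = 0 := ha
    change (a⁻¹).1 c = 0
    funext x
    rw [ExtG_inv_fst, ha']
    exact neg_zero

/-- **The group of the extension module** (note 3789, T3). `D'.π` is the homomorphism
`M.Group → Ext_G V P I` with `simple v ↦ eg D.g s ι v` (restricted to its range), `P' = range`,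
`q = ePr` restricted.
* Relations: for adjacent `u, v` let `H = (h, 1)` with `h c x = single (ι c x) 1` for
`c ∈ s`, `c = u` or `c = v`, and `0` otherwise. Then `eg u = H * (0, g u) * H⁻¹` and
`eg v = H * (0, g v) * H⁻¹` (`hι`), so `(eg u * eg v) ^ M u v = 1`. `eg v * eg v = 1` by direct
computation (`u = v`); nothing to prove if `M u v = 0`.
* The kernel of `κ ∘ q` is a two-group: extension of a subgroup of `D.κ.ker` by the kernel of `ePr`,
an elementary abelian two-group.
* `LinkGood`: let `x = (a, p)` be in all the subgroups of the links of `v ∈ σ`. `p = 1` as `D` is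
link-good. For `c` there is `v ∈ σ` not adjacent to `c`; the elements of `Ext_G` with `a c = 0` form a
subgroup which contains `eg u` for all `u ≠ c`, hence `a c = 0`. -/
theorem exists_group (M : CoxeterMatrix V) {Ps : Type} [Group Ps] (πs : M.Group →* Ps)
    {P : Type} [Group P] [Fintype P] (D : FQ M πs P)
    (hgood : LinkGood (Pool.Agent.H4.FC.gr M) D.g) (s : Finset V) {I : Type} [Fintype I]
    [DecidableEq I] (ι : V → P → I)
    (hι : ∀ v u, (Pool.Agent.H4.FC.gr M).Adj v u → ∀ p, ι v (p * D.g u) = ι v p) :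
    ∃ (P' : Type) (_ : Group P') (_ : Fintype P') (D' : FQ M πs P') (j : P' →* Ext_G V P I),
      LinkGood (Pool.Agent.H4.FC.gr M) D'.g ∧ (∀ v, j (D'.g v) = eg D.g s ι v) ∧
      Function.Surjective ((ePr V P I).comp j) ∧ IsPGroup 2 ((ePr V P I).comp j).ker := by
  classical
  have hrel : M.IsLiftable (eg D.g s ι) := ExtG_rel M D.π s ι hι
  let φ : M.Group →* Ext_G V P I := M.toCoxeterSystem.lift ⟨eg D.g s ι, hrel⟩
  have hφ : ∀ v, φ (M.simple v) = eg D.g s ι v := fun v => M.toCoxeterSystem.lift_apply_simple hrel v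
  have hφ2 : ∀ w, (φ w).2 = D.π w := by
    have h1 : (ePr V P I).comp φ = D.π := by
      refine M.toCoxeterSystem.ext_simple fun i => ?_
      change (φ (M.simple i)).2 = D.π (M.simple i)
      rw [hφ]
      rfl
    intro w
    exact DFunLike.congr_fun h1 w
  let j : φ.range →* Ext_G V P I := φ.range.subtype
  have hj : Function.Injective j := Subtype.val_injective
  have hker : ∀ {Ps' : Type} [Group Ps'] (κ : P →* Ps'), IsPGroup 2 κ.ker →
      IsPGroup 2 (κ.comp ((ePr V P I).comp j)).ker := fun κ hκ => ExtG_pgroup j hj κ hκ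
  let D' : FQ M πs φ.range :=
    { π := φ.rangeRestrict
      surj := φ.rangeRestrict_surjective
      κ := D.κ.comp ((ePr V P I).comp j)
      κπ := fun w => by
        change D.κ (φ w).2 = πs w
        rw [hφ2, D.κπ]
      two := hker D.κ D.two }
  have hD'g : ∀ v, j (D'.g v) = eg D.g s ι v := fun v => hφ v
  refine ⟨φ.range, inferInstance, Fintype.ofFinite _, D', j, ?_, hD'g, ?_, ?_⟩
  · intro σ hσ x hx
    have hp : (j x).2 = 1 := by
      refine hgood σ hσ (j x).2 fun v hv => ?_
      have h1 := Subgroup.mem_map_of_mem ((ePr V P I).comp j) (hx v hv)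
      rw [MonoidHom.map_closure, Set.image_image] at h1
      have h2 : (fun u => ((ePr V P I).comp j) (D'.g u)) = D.g := by
        funext u
        change (j (D'.g u)).2 = D.g u
        rw [hD'g]
        rfl
      rw [h2] at h1
      exact h1
    have ha : ∀ c, (j x).1 c = 0 := by
      intro c
      obtain ⟨v, hv, hvc⟩ := hσ c
      have h1 : Subgroup.closure (D'.g '' {u | (Pool.Agent.H4.FC.gr M).Adj v u}) ≤
          (ExtG_sub V P I c).comap j := by
        rw [Subgroup.closure_le]
        rintro _ ⟨u, hu, rfl⟩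
        change (j (D'.g u)).1 c = 0
        rw [hD'g]
        funext y
        change (if c = u ∧ u ∈ s then _ else _) = (0 : I → ZMod 2)
        rw [if_neg]
        rintro ⟨rfl, -⟩
        exact hvc hu
      exact h1 (hx v hv)
    apply hj
    rw [map_one]
    exact ExtG_ext (fun v y => by rw [ha v]; rfl) hp
  · intro p
    obtain ⟨w, hw⟩ := D.surj p
    refine ⟨φ.rangeRestrict w, ?_⟩
    change (φ w).2 = p
    rw [hφ2, hw]
  · have h1 := hker (MonoidHom.id P) (by
      intro x
      refine ⟨0, ?_⟩
      have hx : x.1 = 1 := x.2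
      apply Subtype.ext
      rw [pow_zero, pow_one]
      exact hx)
    exact h1

end Pool.Agent.H77.SX
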